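import Pool.Agent.T2H38.LSS.Lower

/-!
# Non-primality below the threshold
-/

set_option autoImplicit false
set_option linter.style.haveILetI false

namespace Pool.Agent.T2H38.LSS

open MvPolynomial

section

variable (k : Type) [Field k] {n d : ℕ}

theorem ff_notMem_II (hd : 1 ≤ d) (i : Fin n) : ff k i i ∉ II k n d := by
  classical
  intro h
  let φ : MvPolynomial (Fin n × Fin d) k →+* k :=
    eval fun p : Fin n × Fin d => if p.1 = i ∧ p.2.1 = 0 then 1 else 0
  have h1 : II k n d ≤ RingHom.ker φ := by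
    unfold II
    rw [Ideal.span_le]
    rintro _ ⟨a, b, hab, rfl⟩
    rw [SetLike.mem_coe, RingHom.mem_ker]
    unfold ff
    rw [map_sum]
    refine Finset.sum_eq_zero fun l _ => ?_
    rw [map_mul]
    show eval _ (X _) * eval _ (X _) = 0
    rw [eval_X, eval_X]
    by_cases ha : a = i
    · have hb : b ≠ i := fun hb => hab (ha.trans hb.symm)
      simp [hb]
    · simp [ha]
  have h2 := h1 h
  rw [RingHom.mem_ker] at h2
  unfold ff at h2
  rw [map_sum, Finset.sum_eq_single (⟨0, hd⟩ : Fin d)] at h2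
  · rw [map_mul] at h2
    have h3 : φ (X (i, ⟨0, hd⟩)) = 1 := by
      show eval _ (X _) = 1
      rw [eval_X]
      simp
    rw [h3, mul_one] at h2
    exact one_ne_zero h2
  · intro l _ hl
    rw [map_mul]
    have h3 : φ (X (i, l)) = 0 := by
      show eval _ (X _) = 0
      rw [eval_X, if_neg]
      rintro ⟨_, h4⟩
      exact hl (Fin.ext h4)
    rw [h3, mul_zero]
  · intro h3; exact absurd (Finset.mem_univ _) h3

/-- the dimension of the quotient if the ideal is prime -/
theorem trdeg_of_prime (hd : 1 ≤ d) (hP : (II k n d).IsPrime) :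
    n ≤ d ∧ Algebra.trdeg k (MvPolynomial (Fin n × Fin d) k ⧸ II k n d) ≤
      ((n * d - n * (n - 1) / 2 : ℕ) : Cardinal) := by
  classical
  obtain ⟨r, h1, h2, h3⟩ := prime_bound (II k n d) hP (fun i j hij => ff_mem_II k n d hij) ∅
    (fun i => by
      constructor
      · intro h; exact absurd h (Finset.notMem_empty i)
      · intro h; exact absurd h (ff_notMem_II k hd i))
  rw [Finset.card_empty] at h1 h2 h3
  have hr : r = 0 := by omega
  subst hr
  rw [Fintype.card_fin, Fintype.card_fin] at h2 h3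
  have hnd : n ≤ d := by omega
  refine ⟨hnd, h3.trans ?_⟩
  have h4 := sum_two d n (by omega)
  simp only [Nat.sub_zero, Finset.range_zero, Finset.sum_empty]
  have h5 : 2 * (n * (n - 1) / 2) = n * (n - 1) := by
    apply Nat.mul_div_cancel'
    exact (Nat.even_mul_pred_self _).two_dvd
  have h6 : n * (n - 1) + n = n * n := by
    rcases Nat.eq_zero_or_pos n with h | h
    · subst h; rfl
    · obtain ⟨x, rfl⟩ : ∃ x, n = x + 1 := ⟨n - 1, by omega⟩
      rw [Nat.add_sub_cancel]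
      ring
  have h7 : n * n ≤ n * d := Nat.mul_le_mul_left n hnd
  exact_mod_cast (by omega)

theorem not_prime_of {m r d' : ℕ} (hd : 1 ≤ d) (hm : m ≤ 1) (hmr : m + r ≤ n) (hmn : m < n)
    (hr : r ≤ d') (hd' : r + d' = d)
    (hnum : n * d + r * (r + 1) / 2 ≤ r * d' + ((n - m) * r + m * d') + n * (n - 1) / 2) :
    ¬ (II k n d).IsPrime := by
  classical
  intro hI
  obtain ⟨hnd, hT⟩ := trdeg_of_prime k hd hI
  obtain ⟨ω, hω⟩ := IsAlgClosed.exists_eq_mul_self (-1 : AlgebraicClosure k)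
  obtain ⟨Q, hQ, hQ1, hQ2⟩ := exists_matrix_prime (AlgebraicClosure k) hω.symm r d' hr
  let s : Fin r → Fin d' → (MvPolynomial (Fin r × Fin d') (AlgebraicClosure k) ⧸ Q) :=
    fun a l => Ideal.Quotient.mk Q (X (a, l))
  have hs : ∀ a b, ∑ l, s a l * s b l + (if a = b then 1 else 0) = 0 := by
    intro a b
    have h1 := Ideal.Quotient.eq_zero_iff_mem.2 (hQ1 a b)
    have h2 : Ideal.Quotient.mk Q (∑ l, X (a, l) * X (b, l)) = ∑ l, s a l * s b l := by
      rw [map_sum]
      exact Finset.sum_congr rfl fun l _ => map_mul _ _ _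
    have h3 : Ideal.Quotient.mk Q (if a = b then 1 else 0) = if a = b then 1 else 0 := by
      split_ifs
      · exact map_one _
      · exact map_zero _
    rw [map_add, h2, h3] at h1
    exact h1
  have hsgen : Algebra.adjoin (AlgebraicClosure k)
      (Set.range fun p : Fin r × Fin d' => s p.1 p.2) = ⊤ := by
    have h1 := MvPolynomial.adjoin_range_X (R := AlgebraicClosure k) (σ := Fin r × Fin d')
    have h2 := congrArg (Subalgebra.map (Ideal.Quotient.mkₐ (AlgebraicClosure k) Q)) h1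
    rw [AlgHom.map_adjoin, ← Set.range_comp, Algebra.map_top,
      (AlgHom.range_eq_top _).2 (Ideal.Quotient.mkₐ_surjective _ _)] at h2
    exact h2
  let e : Fin d ≃ Fin r ⊕ Fin d' := (finCongr hd'.symm).trans finSumFinEquiv.symm
  let Ψ : MvPolynomial (Fin n × Fin d) k →ₐ[k] MvPolynomial (Kap n m r d')
      (MvPolynomial (Fin r × Fin d') (AlgebraicClosure k) ⧸ Q) :=
    aeval fun p => vec n m r d' s p.1 (e p.2)
  have hΨ : ∀ j l, Ψ (X (j, l)) = vec n m r d' s j (e l) := fun j l => aeval_X _ _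
  have hΨff : ∀ i j, Ψ (ff k i j) = ∑ l, vec n m r d' s i l * vec n m r d' s j l := by
    intro i j
    unfold ff
    rw [map_sum, ← Equiv.sum_comp e]
    refine Finset.sum_congr rfl fun l _ => ?_
    rw [map_mul, hΨ, hΨ]
  have hIP : II k n d ≤ RingHom.ker Ψ := by
    unfold II
    rw [Ideal.span_le]
    rintro _ ⟨i, j, hij, rfl⟩
    rw [SetLike.mem_coe, RingHom.mem_ker, hΨff]
    exact vec_dot s hs hm hij
  have h1 := trdeg_image k (K := AlgebraicClosure k) s hsgen e hmr Ψ hΨ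
  have hPp : (RingHom.ker Ψ).IsPrime := RingHom.ker_isPrime Ψ
  let i0 : Fin n := ⟨m, hmn⟩
  have h2 := trdeg_succ_le (Ideal.Quotient.factorₐ k hIP)
    (Ideal.Quotient.factor_surjective hIP)
    (r := Ideal.Quotient.mk (II k n d) (ff k i0 i0)) (by
      rw [Ne, Ideal.Quotient.eq_zero_iff_mem]
      exact ff_notMem_II k hd i0) (by
      rw [Ideal.Quotient.factorₐ_apply_mk, Ideal.Quotient.eq_zero_iff_mem, RingHom.mem_ker, hΨff]
      exact vec_dot_ge s hs (by simp [i0]) (by simp [i0]))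
  -- everything is a natural number
  have hfin1 : Algebra.trdeg k (MvPolynomial (Fin n × Fin d) k ⧸ II k n d) < Cardinal.aleph0 :=
    lt_of_le_of_lt hT (Cardinal.natCast_lt_aleph0)
  have hfin2 : Algebra.trdeg k (MvPolynomial (Fin n × Fin d) k ⧸ RingHom.ker Ψ) <
      Cardinal.aleph0 := lt_of_le_of_lt (le_trans (by simp) h2) hfin1
  have hfin3 : Algebra.trdeg (AlgebraicClosure k)
      (MvPolynomial (Fin r × Fin d') (AlgebraicClosure k) ⧸ Q) < Cardinal.aleph0 :=
    lt_of_le_of_lt (le_trans (by simp) h1) hfin2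
  obtain ⟨x, hx⟩ := Cardinal.lt_aleph0.1 hfin1
  obtain ⟨y, hy⟩ := Cardinal.lt_aleph0.1 hfin2
  obtain ⟨z, hz⟩ := Cardinal.lt_aleph0.1 hfin3
  rw [hx] at hT h2
  rw [hy] at h2 h1
  rw [hz] at h1 hQ2
  have h3 : x ≤ n * d - n * (n - 1) / 2 := by exact_mod_cast hT
  have h4 : y + 1 ≤ x := by exact_mod_cast h2
  have h5 : z + ((n - m) * r + m * d') ≤ y := by exact_mod_cast h1
  have h6 : r * d' ≤ z + r * (r + 1) / 2 := by exact_mod_cast hQ2
  omega

end

/-- **Non-primality below the threshold.** -/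
theorem not_prime_of_not_good (k : Type) [Field k] {n d : ℕ} (hd : 1 ≤ d) (hg : ¬ Good n d) :
    ¬ (II k n d).IsPrime := by
  intro hI
  obtain ⟨hnd, -⟩ := trdeg_of_prime k hd hI
  unfold Good at hg
  push Not at hg
  obtain ⟨hg1, hg2⟩ := hg
  obtain ⟨τ, ρ, hρ, h1⟩ : ∃ τ ρ : ℕ, ρ ≤ 1 ∧ 2 * n = d + (2 * τ + ρ) :=
    ⟨(2 * n - d) / 2, (2 * n - d) % 2, by omega, by omega⟩
  have h2 := hg2 τ ρ hρ h1
  have hτ : 1 ≤ τ := by omega
  have h3 : τ * (τ + 1) / 2 + τ * (τ + 1) / 2 = τ * (τ + 1) := by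
    have := Nat.mul_div_cancel' (Nat.even_mul_succ_self τ).two_dvd
    omega
  have hρ' : ρ = 0 ∨ ρ = 1 := by omega
  rcases hρ' with rfl | rfl
  · -- `d = 2 r`
    obtain ⟨r, hr⟩ : ∃ r, n = r + τ := ⟨n - τ, by omega⟩
    have hd2 : d = 2 * r := by omega
    refine not_prime_of k (m := 0) (r := r) (d' := r) hd (by omega) (by omega) (by omega) le_rfl
      (by omega) ?_ hI
    obtain ⟨y, hy⟩ : ∃ y, n = y + 1 := ⟨n - 1, by omega⟩
    have h4 : 2 * (r * (r + 1) / 2) = r * (r + 1) :=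
      Nat.mul_div_cancel' (Nat.even_mul_succ_self r).two_dvd
    have h5 : 2 * (n * (n - 1) / 2) = n * (n - 1) :=
      Nat.mul_div_cancel' (Nat.even_mul_pred_self _).two_dvd
    have h7 : 2 * n ≤ τ * (τ + 1) := by omega
    have h8 : n - 1 = y := by omega
    rw [h8] at h5 ⊢
    rw [Nat.sub_zero, hd2]
    generalize r * (r + 1) / 2 = B at h4 ⊢
    generalize n * y / 2 = A at h5 ⊢
    have h9 : (y : ℤ) = r + τ - 1 := by omega
    have h10 : (n : ℤ) = r + τ := by omega
    zify at h4 h5 h7 ⊢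
    rw [h10] at h5 h7 ⊢
    rw [h9] at h5
    nlinarith
  · -- `d = 2 r + 1`
    obtain ⟨r, hr⟩ : ∃ r, n = r + τ + 1 := ⟨n - τ - 1, by omega⟩
    have hd2 : d = 2 * r + 1 := by omega
    refine not_prime_of k (m := 1) (r := r) (d' := r + 1) hd (by omega) (by omega) (by omega)
      (by omega) (by omega) ?_ hI
    have h4 : 2 * (r * (r + 1) / 2) = r * (r + 1) :=
      Nat.mul_div_cancel' (Nat.even_mul_succ_self r).two_dvd
    have h5 : 2 * (n * (n - 1) / 2) = n * (n - 1) :=
      Nat.mul_div_cancel' (Nat.even_mul_pred_self _).two_dvd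
    have h7 : 2 * n ≤ τ * (τ + 1) + 2 := by omega
    have h8 : n - 1 = r + τ := by omega
    rw [h8] at h5 ⊢
    rw [hd2]
    generalize r * (r + 1) / 2 = B at h4 ⊢
    generalize n * (r + τ) / 2 = A at h5 ⊢
    have h10 : (n : ℤ) = r + τ + 1 := by omega
    zify at h4 h5 h7 ⊢
    rw [h10] at h5 h7 ⊢
    nlinarith

end Pool.Agent.T2H38.LSS
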