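import Mathlib

/-!
# The arithmetic of the threshold
-/

set_option autoImplicit false

namespace Pool.Agent.T2H38.LSS

theorem sum_one (d r : ℕ) (h : r ≤ d) :
    2 * ∑ j ∈ Finset.range r, (d - 1 - j) + r * (r + 1) = 2 * (r * d) := by
  induction r with
  | zero => simp
  | succ r ih =>
    have h1 := ih (by omega)
    rw [Finset.sum_range_succ]
    obtain ⟨e, rfl⟩ : ∃ e, d = e + (r + 1) := ⟨d - (r + 1), by omega⟩
    have h2 : e + (r + 1) - 1 - r = e := by omega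
    rw [h2]
    nlinarith [h1]

theorem sum_two (D m : ℕ) (h : m ≤ D + 1) :
    2 * ∑ j ∈ Finset.range m, (D - j) + m * m = 2 * (m * D) + m := by
  induction m with
  | zero => simp
  | succ m ih =>
    have h1 := ih (by omega)
    rw [Finset.sum_range_succ]
    obtain ⟨e, rfl⟩ : ∃ e, D = e + m := ⟨D - m, by omega⟩
    have h2 : e + m - m = e := by omega
    rw [h2]
    nlinarith [h1]

/-- the condition on `n` and `d`; here `2 n - d = 2 τ + ρ` -/
def Good (n d : ℕ) : Prop :=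
  2 * n ≤ d + 1 ∨ ∃ τ ρ : ℕ, ρ ≤ 1 ∧ 2 * n = d + (2 * τ + ρ) ∧ τ * (τ + 1) + 2 + 2 * ρ ≤ 2 * n

theorem delta_pos (n d a s : ℤ) (hg : 2 * n ≤ d + 1 ∨ ∃ τ ρ : ℤ, 0 ≤ τ ∧ 0 ≤ ρ ∧ ρ ≤ 1 ∧
      2 * n = d + (2 * τ + ρ) ∧ τ * (τ + 1) + 2 + 2 * ρ ≤ 2 * n)
    (hnd : n ≤ d) (ha : 1 ≤ a) (han : a ≤ n) (hs : 0 ≤ s)
    (h2 : a ≤ d - n + 2 * s) : 2 ≤ 2 * s * (d - n) - 2 * (s - 1) * a + s * (3 * s - 1) := by
  rcases eq_or_lt_of_le hs with rfl | hs0
  · linarith
  rcases eq_or_lt_of_le (Int.add_one_le_iff.2 hs0) with hs1 | hs1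
  · have : s = 1 := by omega
    subst this
    nlinarith
  have hs2 : 2 ≤ s := by omega
  rcases hg with hg | ⟨τ, ρ, hτ, hρ0, hρ, h3, h4⟩
  · -- `d ≥ 2 n - 1`
    have h5 : (s - 1) * a ≤ (s - 1) * n := mul_le_mul_of_nonneg_left han (by omega)
    have h6 : s * (n - 1) ≤ s * (d - n) := mul_le_mul_of_nonneg_left (by omega) hs
    nlinarith
  · rcases le_or_gt s τ with hsτ | hsτ
    · have h5 : (s - 1) * a ≤ (s - 1) * (d - n + 2 * s) :=
        mul_le_mul_of_nonneg_left h2 (by omega)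
      have h6 : 0 ≤ (τ - s) * (τ + s - 3) := by
        rcases eq_or_lt_of_le hsτ with h7 | h7
        · rw [h7, sub_self, zero_mul]
        · exact mul_nonneg (by omega) (by omega)
      have h7 : d = 2 * n - (2 * τ + ρ) := by omega
      subst h7
      nlinarith
    · obtain ⟨x, rfl⟩ : ∃ x, s = τ + x := ⟨s - τ, by ring⟩
      have hx : 1 ≤ x := by omega
      have h5 : (τ + x - 1) * a ≤ (τ + x - 1) * n := mul_le_mul_of_nonneg_left han (by omega)
      have h7 : d = 2 * n - (2 * τ + ρ) := by omega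
      subst h7
      have hρ' : ρ = 0 ∨ ρ = 1 := by omega
      rcases hρ' with rfl | rfl
      · nlinarith [mul_nonneg hτ (by omega : (0 : ℤ) ≤ x)]
      · nlinarith [mul_nonneg hτ (by omega : (0 : ℤ) ≤ x - 1), mul_nonneg (by omega : (0:ℤ) ≤ x - 1) (by omega : (0 : ℤ) ≤ x)]

theorem arith_upper (n d r a : ℕ) (hg : Good n d) (hnd : n ≤ d) (ha : 1 ≤ a) (han : a ≤ n)
    (hr : r ≤ a) (h2 : (n - a) + 2 * r ≤ d) :
    (∑ j ∈ Finset.range r, (d - 1 - j) + (a - r) * r +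
        ∑ j ∈ Finset.range (n - a), (d - r - j)) + n * (n - 1) / 2 + 1 ≤ n * d := by
  obtain ⟨m, rfl⟩ : ∃ m, n = a + m := ⟨n - a, by omega⟩
  obtain ⟨s, rfl⟩ : ∃ s, a = r + s := ⟨a - r, by omega⟩
  have hm : r + s + m - (r + s) = m := by omega
  have hs' : r + s - r = s := by omega
  rw [hm] at h2 ⊢
  rw [hs']
  have h3 := sum_one d r (by omega)
  obtain ⟨D, rfl⟩ : ∃ D, d = r + D := ⟨d - r, by omega⟩
  have hD : r + D - r = D := by omega
  rw [hD]
  have h4 := sum_two D m (by omega)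
  have h5 : 2 * ((r + s + m) * (r + s + m - 1) / 2) = (r + s + m) * (r + s + m - 1) := by
    apply Nat.mul_div_cancel'
    exact (Nat.even_mul_pred_self _).two_dvd
  have h6 : (r + s + m) * (r + s + m - 1) + (r + s + m) = (r + s + m) * (r + s + m) := by
    obtain ⟨x, hx⟩ : ∃ x, r + s + m = x + 1 := ⟨r + s + m - 1, by omega⟩
    rw [hx, Nat.add_sub_cancel]
    ring
  have h7 := delta_pos (r + s + m) (r + D) (r + s) s (by
    rcases hg with hg | ⟨τ, ρ, hρ, hg1, hg2⟩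
    · left; exact_mod_cast hg
    · right
      exact ⟨τ, ρ, by positivity, by positivity, by exact_mod_cast hρ, by exact_mod_cast hg1,
        by exact_mod_cast hg2⟩) (by exact_mod_cast hnd) (by exact_mod_cast ha)
    (by exact_mod_cast han) (by positivity) (by
      have : (m : ℤ) + 2 * r ≤ r + D := by exact_mod_cast h2
      linarith)
  zify at h3 h4 h5 h6 ⊢
  nlinarith

end Pool.Agent.T2H38.LSS
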