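import Pool.Agent.T2H38.LSS.Prime

/-!
# Primality from the squares of the rows being nonzerodivisors
-/

set_option autoImplicit false
set_option linter.style.haveILetI false

namespace Pool.Agent.T2H38.LSS

section

variable {R R' : Type} [CommRing R] [CommRing R'] {Λ : Type} [Fintype Λ]

/-- the standard bilinear form -/
def dot (u w : Λ → R) : R := ∑ l, u l * w l

theorem dot_comm (u w : Λ → R) : dot u w = dot w u :=
  Finset.sum_congr rfl fun _ _ => mul_comm _ _

theorem dot_comb (u w z : Λ → R) (a b : R) :
    dot u (fun l => a * w l - b * z l) = a * dot u w - b * dot u z := by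
  unfold dot
  rw [Finset.mul_sum, Finset.mul_sum, ← Finset.sum_sub_distrib]
  exact Finset.sum_congr rfl fun l _ => by ring

/-- the Gram–Schmidt process without denominators after `i` steps -/
def st (y : ℕ → Λ → R) : ℕ → ℕ → Λ → R
  | 0 => y
  | i + 1 => fun j => if j ≤ i then st y i j else
      fun l => dot (st y i i) (st y i i) * st y i j l - dot (st y i j) (st y i i) * st y i i l

theorem st_le (y : ℕ → Λ → R) {i j : ℕ} (h : j ≤ i) : st y (i + 1) j = st y i j := by
  show (if j ≤ i then st y i j else _) = _
  rw [if_pos h]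

theorem st_gt (y : ℕ → Λ → R) {i j : ℕ} (h : i < j) : st y (i + 1) j =
    fun l => dot (st y i i) (st y i i) * st y i j l - dot (st y i j) (st y i i) * st y i i l := by
  show (if j ≤ i then st y i j else _) = _
  rw [if_neg (by omega)]

theorem st_stable (y : ℕ → Λ → R) {i j : ℕ} (h : j ≤ i) : st y i j = st y j j := by
  induction i with
  | zero => rw [Nat.le_zero.1 h]
  | succ i ih =>
    rcases Nat.lt_or_ge i j with h1 | h1
    · have : j = i + 1 := by omega
      rw [this]
    · rw [st_le y h1, ih h1]

theorem st_orth (y : ℕ → Λ → R) (i : ℕ) : ∀ a < i, ∀ j, j ≠ a →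
    dot (st y i a) (st y i j) = 0 := by
  induction i with
  | zero => intro a ha; omega
  | succ i ih =>
    intro a ha j hj
    rw [st_le y (by omega : a ≤ i)]
    rcases Nat.lt_or_ge i j with h1 | h1
    · rw [st_gt y h1, dot_comb]
      rcases Nat.lt_or_ge a i with h2 | h2
      · rw [ih a h2 j hj, ih a h2 i (by omega)]
        ring
      · have : a = i := by omega
        subst this
        rw [dot_comm (st y a j) (st y a a)]
        ring
    · rw [st_le y h1]
      rcases Nat.lt_or_ge a i with h2 | h2
      · exact ih a h2 j hj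
      · have : a = i := by omega
        subst this
        rw [dot_comm]
        exact ih j (by omega) a (Ne.symm hj)

theorem st_map (f : R →+* R') (y : ℕ → Λ → R) (i : ℕ) : ∀ j l,
    st (fun j l => f (y j l)) i j l = f (st y i j l) := by
  have hdot : ∀ u w : Λ → R, dot (fun l => f (u l)) (fun l => f (w l)) = f (dot u w) := by
    intro u w
    unfold dot
    simp only [map_sum, map_mul]
  induction i with
  | zero => intro j l; rfl
  | succ i ih =>
    intro j l
    have ih' : ∀ j, st (fun j l => f (y j l)) i j = fun l => f (st y i j l) :=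
      fun j => funext (ih j)
    rcases Nat.lt_or_ge i j with h1 | h1
    · rw [st_gt _ h1, st_gt _ h1, ih', ih', hdot, hdot]
      simp only [map_sub, map_mul]
    · rw [st_le _ h1, st_le _ h1, ih]

/-- the norm of the `a`-th vector of the process -/
def NN (y : ℕ → Λ → R) (a : ℕ) : R := dot (st y a a) (st y a a)

theorem NN_map (f : R →+* R') (y : ℕ → Λ → R) (a : ℕ) :
    NN (fun j l => f (y j l)) a = f (NN y a) := by
  unfold NN dot
  rw [map_sum]
  refine Finset.sum_congr rfl fun l _ => ?_
  rw [st_map, map_mul]

/-- the product of the first norms -/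
def DD (y : ℕ → Λ → R) (a : ℕ) : R := ∏ b ∈ Finset.range a, NN y b

theorem DD_map (f : R →+* R') (y : ℕ → Λ → R) (a : ℕ) :
    DD (fun j l => f (y j l)) a = f (DD y a) := by
  unfold DD
  rw [map_prod]
  exact Finset.prod_congr rfl fun b _ => NN_map f y b

theorem st_of_orth {y : ℕ → Λ → R} (h : ∀ a b, a ≠ b → dot (y a) (y b) = 0) (i : ℕ) :
    ∀ j, st y i j = fun l => DD y (min i j) * y j l := by
  induction i with
  | zero =>
    intro j
    funext l
    rw [Nat.zero_min, DD, Finset.prod_range_zero, one_mul]
    rfl
  | succ i ih =>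
    intro j
    rcases Nat.lt_or_ge i j with h1 | h1
    · rw [st_gt _ h1]
      have h2 : dot (st y i j) (st y i i) = 0 := by
        rw [ih j, ih i]
        have : dot (fun l => DD y (min i j) * y j l) (fun l => DD y (min i i) * y i l) =
            DD y (min i j) * DD y (min i i) * dot (y j) (y i) := by
          unfold dot
          rw [Finset.mul_sum]
          exact Finset.sum_congr rfl fun l _ => by ring
        rw [this, h j i (by omega), mul_zero]
      funext l
      rw [h2, zero_mul, sub_zero]
      have h3 : min (i + 1) j = i + 1 := by omega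
      have h4 : min i j = i := by omega
      have h5 : DD y (i + 1) = DD y i * NN y i := by
        unfold DD
        rw [Finset.prod_range_succ]
      rw [ih j, h3, h4, h5]
      show NN y i * _ = _
      ring
    · rw [st_le _ h1, ih j]
      have h3 : min (i + 1) j = j := by omega
      have h4 : min i j = j := by omega
      rw [h3, h4]

theorem NN_of_orth {y : ℕ → Λ → R} (h : ∀ a b, a ≠ b → dot (y a) (y b) = 0) (a : ℕ) :
    NN y a = DD y a ^ 2 * dot (y a) (y a) := by
  unfold NN
  rw [st_of_orth h a a, min_self]
  unfold dot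
  rw [Finset.mul_sum]
  exact Finset.sum_congr rfl fun l _ => by ring

end

section

open MvPolynomial

variable (k : Type) [Field k] (n d : ℕ)

/-- the rows of variables -/
noncomputable def YY : ℕ → Fin d → MvPolynomial (Fin n × Fin d) k :=
  fun j l => if h : j < n then X (⟨j, h⟩, l) else 0

variable {k n d} in
theorem NN_ne_zero (hnd : n ≤ d) {a : ℕ} (ha : a < n) : NN (YY k n d) a ≠ 0 := by
  classical
  -- specialise to the standard basis vectors
  let φ : MvPolynomial (Fin n × Fin d) k →+* k :=
    (eval fun p : Fin n × Fin d => if p.1.1 = p.2.1 then 1 else 0)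
  have hY : ∀ j l, φ (YY k n d j l) = if j < n ∧ j = l.1 then 1 else 0 := by
    intro j l
    unfold YY
    by_cases h : j < n
    · rw [dif_pos h]
      show eval _ (X _) = _
      rw [eval_X]
      simp [h]
    · rw [dif_neg h, map_zero, if_neg (by tauto)]
  have horth : ∀ a b, a ≠ b → dot (fun l => φ (YY k n d a l)) (fun l => φ (YY k n d b l)) = 0 := by
    intro a b hab
    unfold dot
    refine Finset.sum_eq_zero fun l _ => ?_
    beta_reduce
    rw [hY, hY]
    by_cases h1 : a = l.1
    · rw [if_neg (c := b < n ∧ b = l.1) (by rintro ⟨_, h⟩; exact hab (h1.trans h.symm)), mul_zero]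
    · rw [if_neg (by tauto), zero_mul]
  have hself : ∀ a < n, dot (fun l => φ (YY k n d a l)) (fun l => φ (YY k n d a l)) = 1 := by
    intro a ha
    unfold dot
    rw [Finset.sum_eq_single (⟨a, by omega⟩ : Fin d)]
    · beta_reduce
      rw [hY, if_pos ⟨ha, rfl⟩, one_mul]
    · intro l _ hl
      beta_reduce
      rw [hY, if_neg, zero_mul]
      rintro ⟨_, h⟩
      exact hl (Fin.ext h.symm)
    · intro h; exact absurd (Finset.mem_univ _) h
  have key : ∀ a < n, NN (fun j l => φ (YY k n d j l)) a = 1 := by
    intro a
    induction a using Nat.strong_induction_on with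
    | _ a ih =>
      intro ha
      rw [NN_of_orth horth, hself a ha, mul_one]
      have : DD (fun j l => φ (YY k n d j l)) a = 1 := by
        unfold DD
        exact Finset.prod_eq_one fun b hb => ih b (Finset.mem_range.1 hb)
          (by have := Finset.mem_range.1 hb; omega)
      rw [this, one_pow]
  intro h
  have h1 := key a ha
  rw [NN_map, h, map_zero] at h1
  exact zero_ne_one h1

variable {k n d} in
theorem isPrime_of_nz (hnd : n ≤ d)
    (hnz : ∀ i : Fin n, Pool.Agent.TH144.MB.NZ (ff k i i) (II k n d)) :
    (II k n d).IsPrime := by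
  classical
  set R := MvPolynomial (Fin n × Fin d) k with hR
  set I : Ideal R := II k n d with hI
  set π : R →+* R ⧸ I := Ideal.Quotient.mk I with hπ
  have hYY : ∀ (i : Fin n) (l : Fin d), YY k n d i.1 l = X (i, l) := by
    intro i l
    unfold YY
    rw [dif_pos i.2]
  have hdotff : ∀ i j : Fin n, dot (YY k n d i.1) (YY k n d j.1) = ff k i j := by
    intro i j
    unfold dot ff
    exact Finset.sum_congr rfl fun l _ => by rw [hYY, hYY]
  have horth : ∀ a b, a ≠ b → dot (fun l => π (YY k n d a l)) (fun l => π (YY k n d b l)) = 0 := by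
    intro a b hab
    have h0 : dot (fun l => π (YY k n d a l)) (fun l => π (YY k n d b l)) =
        π (dot (YY k n d a) (YY k n d b)) := by
      unfold dot
      simp only [map_sum, map_mul]
    rw [h0]
    by_cases ha : a < n
    · by_cases hb : b < n
      · rw [hdotff ⟨a, ha⟩ ⟨b, hb⟩, hπ, Ideal.Quotient.eq_zero_iff_mem]
        exact ff_mem_II k n d (fun h => hab (congrArg Fin.val h))
      · have : dot (YY k n d a) (YY k n d b) = 0 := by
          unfold dot YY
          simp [hb]
        rw [this, map_zero]
    · have : dot (YY k n d a) (YY k n d b) = 0 := by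
        unfold dot YY
        simp [ha]
      rw [this, map_zero]
  have hself : ∀ i : Fin n, dot (fun l => π (YY k n d i.1 l)) (fun l => π (YY k n d i.1 l)) =
      π (ff k i i) := by
    intro i
    rw [← hdotff]
    unfold dot
    simp only [map_sum, map_mul]
  have hq : ∀ i : Fin n, π (ff k i i) ∈ nonZeroDivisors (R ⧸ I) := by
    intro i
    rw [mem_nonZeroDivisors_iff_right]
    intro x hx
    obtain ⟨p, rfl⟩ := Ideal.Quotient.mk_surjective x
    rw [hπ, ← map_mul, Ideal.Quotient.eq_zero_iff_mem] at hx
    rw [Ideal.Quotient.eq_zero_iff_mem]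
    exact hnz i p (by rwa [mul_comm])
  have hN : ∀ a < n, π (NN (YY k n d) a) ∈ nonZeroDivisors (R ⧸ I) := by
    intro a
    induction a using Nat.strong_induction_on with
    | _ a ih =>
      intro ha
      rw [← NN_map, NN_of_orth horth, hself ⟨a, ha⟩]
      refine mul_mem (pow_mem ?_ 2) (hq _)
      rw [DD_map]
      unfold DD
      rw [map_prod]
      exact prod_mem fun b hb => ih b (Finset.mem_range.1 hb)
        (by have := Finset.mem_range.1 hb; omega)
  -- the localizations
  set x : R := DD (YY k n d) n with hx
  have hx0 : x ≠ 0 := by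
    rw [hx]
    unfold DD
    exact Finset.prod_ne_zero_iff.2 fun a ha => NN_ne_zero hnd (Finset.mem_range.1 ha)
  have hπx : π x ∈ nonZeroDivisors (R ⧸ I) := by
    rw [hx]
    unfold DD
    rw [map_prod]
    exact prod_mem fun a ha => hN a (Finset.mem_range.1 ha)
  let R' := Localization.Away x
  let A' := Localization.Away (π x)
  have hR'dom : IsDomain R' := IsLocalization.isDomain_localization
    (powers_le_nonZeroDivisors_of_noZeroDivisors hx0)
  have hA'inj : Function.Injective (algebraMap (R ⧸ I) A') :=
    IsLocalization.injective A' (M := Submonoid.powers (π x)) (by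
      rw [Submonoid.powers_le]
      exact hπx)
  let g : R →+* A' := (algebraMap (R ⧸ I) A').comp π
  have hgx : IsUnit (g x) := IsLocalization.Away.algebraMap_isUnit (π x)
  let ρ : R' →+* A' := IsLocalization.Away.lift x hgx
  have hρ : ∀ r : R, ρ (algebraMap R R' r) = g r := fun r => IsLocalization.Away.lift_eq x hgx r
  have hDunit : ∀ j : Fin n, ∃ u : R', u * algebraMap R R' (DD (YY k n d) j.1) = 1 := by
    intro j
    have h1 : IsUnit (algebraMap R R' x) := IsLocalization.Away.algebraMap_isUnit x
    have h2 : DD (YY k n d) j.1 ∣ x := by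
      rw [hx]
      unfold DD
      exact Finset.prod_dvd_prod_of_subset _ _ _ (Finset.range_subset_range.2 j.2.le)
    have h3 : IsUnit (algebraMap R R' (DD (YY k n d) j.1)) :=
      isUnit_of_dvd_unit (map_dvd _ h2) h1
    exact h3.exists_left_inv
  choose u hu using hDunit
  let Ψ : R →+* R' := eval₂Hom ((algebraMap R R').comp C)
    (fun p => u p.1 * algebraMap R R' (st (YY k n d) n p.1.1 p.2))
  have hΨX : ∀ (i : Fin n) (l : Fin d), Ψ (X (i, l)) =
      u i * algebraMap R R' (st (YY k n d) n i.1 l) := fun i l => eval₂Hom_X' _ _ _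
  have hcomp : ρ.comp Ψ = g := by
    apply MvPolynomial.ringHom_ext
    · intro a
      rw [RingHom.comp_apply, eval₂Hom_C, RingHom.comp_apply, hρ]
    · rintro ⟨i, l⟩
      rw [RingHom.comp_apply, hΨX, map_mul, hρ]
      have h1 : g (st (YY k n d) n i.1 l) = g (DD (YY k n d) i.1) * g (X (i, l)) := by
        show algebraMap (R ⧸ I) A' (π _) = algebraMap (R ⧸ I) A' (π _) * algebraMap (R ⧸ I) A' (π _)
        rw [← map_mul, ← st_map, st_of_orth horth n i.1]
        have h3 : min n i.1 = i.1 := by have := i.2; omega
        rw [h3, DD_map]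
        beta_reduce
        rw [hYY]
      rw [h1, ← mul_assoc]
      have h2 : ρ (u i) * g (DD (YY k n d) i.1) = 1 := by
        rw [← hρ, ← map_mul, hu, map_one]
      rw [h2, one_mul]
  have hker : RingHom.ker Ψ = I := by
    apply le_antisymm
    · intro p hp
      rw [RingHom.mem_ker] at hp
      have h1 : g p = 0 := by rw [← hcomp, RingHom.comp_apply, hp, map_zero]
      have h2 : π p = 0 := by
        apply hA'inj
        rw [map_zero]
        exact h1
      exact Ideal.Quotient.eq_zero_iff_mem.1 h2
    · rw [hI]
      unfold II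
      rw [Ideal.span_le]
      rintro _ ⟨i, j, hij, rfl⟩
      rw [SetLike.mem_coe, RingHom.mem_ker]
      unfold ff
      rw [map_sum]
      have h1 : ∀ l, Ψ (X (i, l) * X (j, l)) = u i * u j * algebraMap R R'
          (st (YY k n d) n i.1 l * st (YY k n d) n j.1 l) := by
        intro l
        rw [map_mul, hΨX, hΨX, map_mul]
        ring
      rw [Finset.sum_congr rfl fun l _ => h1 l, ← Finset.mul_sum, ← map_sum]
      have h2 := st_orth (YY k n d) n i.1 i.2 j.1 (fun h => hij (Fin.ext h.symm))
      unfold dot at h2
      rw [h2, map_zero, mul_zero]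
  rw [← hker]
  exact RingHom.ker_isPrime Ψ

end

end Pool.Agent.T2H38.LSS
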