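import Pool.Agent.T2H38.LSS.Steps

/-!
# Fields generated by orthogonal isotropic vectors
-/

set_option autoImplicit false
set_option linter.style.haveILetI false

namespace Pool.Agent.T2H38.LSS

open IntermediateField Module

section

variable {F : Type} [Field F] {Λ : Type} [Fintype Λ]

theorem dim_bound {ι ι' : Type} [Fintype ι] [Fintype ι'] {u : ι → Λ → F}
    (hu : LinearIndependent F u) {u' : ι' → Λ → F} (hu' : LinearIndependent F u')
    (h : ∀ i j, ∑ l, u i l * u' j l = 0) :
    Fintype.card ι + Fintype.card ι' ≤ Fintype.card Λ := by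
  classical
  let M : Matrix ι Λ F := Matrix.of u
  have h1 : M.rank = Fintype.card ι := LinearIndependent.rank_matrix hu
  have h2 := LinearMap.finrank_range_add_finrank_ker M.mulVecLin
  rw [finrank_fintype_fun_eq_card] at h2
  have h3 : ∀ j, u' j ∈ LinearMap.ker M.mulVecLin := by
    intro j
    rw [LinearMap.mem_ker]
    funext i
    exact h i j
  have h4 : LinearIndependent F (fun j => (⟨u' j, h3 j⟩ : LinearMap.ker M.mulVecLin)) :=
    LinearIndependent.of_comp (LinearMap.ker M.mulVecLin).subtype hu'
  have h5 := h4.fintype_card_le_finrank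
  have h6 : finrank F (LinearMap.range M.mulVecLin) = Fintype.card ι := h1
  omega

theorem exists_basis {V ι : Type} [AddCommGroup V] [Module F V] (v : ι → V) (S0 S : Finset ι)
    (h0 : LinearIndepOn F v (S0 : Set ι)) (h : S0 ⊆ S) :
    ∃ B : Finset ι, S0 ⊆ B ∧ B ⊆ S ∧ LinearIndepOn F v (B : Set ι) ∧
      ∀ i ∈ S, v i ∈ Submodule.span F (v '' (B : Set ι)) := by
  classical
  obtain ⟨b, h1, h2, h3, h4⟩ := exists_linearIndepOn_extension h0 (Finset.coe_subset.2 h)
  have hfin : b.Finite := S.finite_toSet.subset h1
  refine ⟨hfin.toFinset, ?_, ?_, ?_, ?_⟩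
  · intro x hx
    exact hfin.mem_toFinset.2 (h2 (Finset.mem_coe.2 hx))
  · intro x hx
    exact Finset.mem_coe.1 (h1 (hfin.mem_toFinset.1 hx))
  · rwa [hfin.coe_toFinset]
  · intro i hi
    rw [hfin.coe_toFinset]
    exact h3 ⟨i, hi, rfl⟩

theorem card_basis {V ι : Type} [AddCommGroup V] [Module F V] {v : ι → V} {B : Finset ι}
    (hB : LinearIndepOn F v (B : Set ι)) :
    finrank F (Submodule.span F (v '' (B : Set ι))) = B.card := by
  classical
  have h1 := finrank_span_eq_card (R := F) (b := fun x : B => v x) hB
  rw [Fintype.card_coe] at h1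
  rw [← h1, Set.image_eq_range]
  rfl

end

variable {K F : Type} [Field K] [Field F] [Algebra K F] {Λ : Type} {ι : Type}

/-- the field generated by the coordinates of the vectors with index in `T` -/
noncomputable def LT (K : Type) {F : Type} [Field K] [Field F] [Algebra K F] {Λ : Type} {ι : Type}
    (v : ι → Λ → F) (T : Set ι) : IntermediateField K F :=
  adjoin K {x | ∃ i ∈ T, ∃ l, v i l = x}

theorem mem_LT {v : ι → Λ → F} {T : Set ι} {i : ι} (hi : i ∈ T) (l : Λ) :
    v i l ∈ LT K v T :=
  subset_adjoin K _ ⟨i, hi, l, rfl⟩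

theorem LT_le {v : ι → Λ → F} {T : Set ι} {L : IntermediateField K F}
    (h : ∀ i ∈ T, ∀ l, v i l ∈ L) : LT K v T ≤ L := by
  unfold LT
  rw [adjoin_le_iff]
  rintro _ ⟨i, hi, l, rfl⟩
  exact h i hi l

theorem LT_insert (v : ι → Λ → F) (T : Set ι) (i : ι) :
    LT K v (insert i T) ≤ LT K v T ⊔ adjoin K (Set.range (v i)) := by
  refine LT_le ?_
  intro j hj l
  rcases hj with rfl | hj
  · exact (le_sup_right : adjoin K (Set.range (v j)) ≤ LT K v T ⊔ adjoin K (Set.range (v j)))
      (subset_adjoin K _ ⟨l, rfl⟩)
  · exact (le_sup_left : LT K v T ≤ LT K v T ⊔ adjoin K (Set.range (v i))) (mem_LT hj l)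

theorem chain [DecidableEq ι] (v : ι → Λ → F) (T0 : Finset ι) {N0 : ℕ}
    (h0 : Small (LT K v (T0 : Set ι)) N0) (f : ℕ → ℕ) (T' : Finset ι)
    (step : ∀ T'' ⊆ T', ∀ i ∈ T', i ∉ T'' → ∀ N,
      Small (LT K v ((T0 ∪ T'' : Finset ι) : Set ι)) N →
      Small (LT K v ((T0 ∪ T'' : Finset ι) : Set ι) ⊔ adjoin K (Set.range (v i)))
        (N + f T''.card)) :
    Small (LT K v ((T0 ∪ T' : Finset ι) : Set ι)) (N0 + ∑ j ∈ Finset.range T'.card, f j) := by
  have key : ∀ T'' ⊆ T', Small (LT K v ((T0 ∪ T'' : Finset ι) : Set ι))
      (N0 + ∑ j ∈ Finset.range T''.card, f j) := by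
    intro T''
    induction T'' using Finset.induction_on with
    | empty => intro _; simpa using h0
    | insert i T hi ih =>
      intro hT
      have h1 := ih (fun x hx => hT (Finset.mem_insert_of_mem hx))
      have h2 := step T (fun x hx => hT (Finset.mem_insert_of_mem hx)) i
        (hT (Finset.mem_insert_self i T)) hi _ h1
      rw [Finset.card_insert_of_notMem hi, Finset.sum_range_succ, ← add_assoc]
      refine h2.mono ?_ le_rfl
      rw [Finset.union_insert, Finset.coe_insert]
      exact LT_insert v _ i
  exact key T' (Finset.Subset.refl _)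

variable [Fintype Λ]

/-- characteristic different from two -/
theorem iso_bound_ne (h2 : (2 : F) ≠ 0) (v : ι → Λ → F) (S : Finset ι)
    (h : ∀ i ∈ S, ∀ j ∈ S, ∑ l, v i l * v j l = 0) (B : Finset ι) (hBS : B ⊆ S)
    (hB : LinearIndepOn F v (B : Set ι))
    (hB2 : ∀ i ∈ S, v i ∈ Submodule.span F (v '' (B : Set ι))) :
    Small (LT K v (S : Set ι)) (∑ j ∈ Finset.range B.card, (Fintype.card Λ - 1 - j) +
      (S.card - B.card) * B.card) := by
  classical
  have h1 := chain (K := K) v ∅ (N0 := 0)
    (small_bot.mono (LT_le (by simp)) le_rfl) (fun j => Fintype.card Λ - 1 - j) B (by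
      intro T hT i hi hiT N hN
      rw [Finset.empty_union] at hN ⊢
      have hind := (linearIndepOn_insert (f := v) (s := (T : Set ι)) (a := i)
        (by rwa [Finset.mem_coe])).1 (hB.mono (by
          rw [← Finset.coe_insert, Finset.coe_subset]
          exact Finset.insert_subset hi hT))
      have h3 := step_quad (K := K) h2 hN (u := fun x : T => v x) (w := v i)
        (fun x l => mem_LT (Finset.mem_coe.2 x.2) l) hind.1
        (fun x => h x (hBS (hT x.2)) i (hBS hi)) (h i (hBS hi) i (hBS hi)) (by
          have h4 := hind.2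
          rw [Set.image_eq_range] at h4
          exact h4)
      rw [Fintype.card_coe] at h3
      refine h3.mono le_rfl ?_
      rw [Nat.sub_right_comm])
  rw [Finset.empty_union, zero_add] at h1
  have h3 := chain (K := K) v B h1 (fun _ => B.card) (S \ B) (by
      intro T hT i hi hiT N hN
      have h4 := step_span (K := K) hN (u := fun x : B => v x) (w := v i)
        (fun x l => mem_LT (by
          rw [Finset.coe_union]
          exact Or.inl (Finset.mem_coe.2 x.2)) l) (by
          have h5 := hB2 i (Finset.sdiff_subset hi)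
          rw [Set.image_eq_range] at h5
          exact h5)
      rwa [Fintype.card_coe] at h4)
  rw [Finset.union_sdiff_of_subset hBS, Finset.sum_const, Finset.card_range, smul_eq_mul,
    Finset.card_sdiff_of_subset hBS] at h3
  exact h3

/-- the family with the vector `(1, …, 1)` added -/
def vo (v : ι → Λ → F) : Option ι → Λ → F := fun o => o.elim (fun _ => 1) v

omit [Fintype Λ] in
theorem small_none (v : ι → Λ → F) :
    Small (LT K (vo v) (({none} : Finset (Option ι)) : Set (Option ι))) 0 := by
  refine small_bot.mono (LT_le ?_) le_rfl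
  intro i hi l
  rw [Finset.mem_coe, Finset.mem_singleton] at hi
  rw [hi]
  exact one_mem _

theorem sum_eq_zero_of_two (h2 : (2 : F) = 0) {w : Λ → F} (hw : ∑ l, w l * w l = 0) :
    ∑ l, w l = 0 := by
  haveI : CharP F 2 := CharTwo.of_one_ne_zero_of_two_eq_zero one_ne_zero h2
  have h1 : (∑ l, w l) ^ 2 = ∑ l, w l ^ 2 := by
    rw [sum_pow_char]
  have h3 : (∑ l, w l) ^ 2 = 0 := by
    rw [h1, ← hw]
    exact Finset.sum_congr rfl fun l _ => pow_two _
  exact pow_eq_zero_iff (two_ne_zero) |>.1 h3

/-- the step for families containing `(1, …, 1)` -/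
theorem chain_two (h2 : (2 : F) = 0) (v : ι → Λ → F) (S : Finset ι)
    (h : ∀ i ∈ S, ∀ j ∈ S, ∑ l, v i l * v j l = 0) [DecidableEq ι] (T' : Finset (Option ι))
    (hT' : ∀ x ∈ T', ∃ i ∈ S, x = some i)
    (hind : LinearIndepOn F (vo v) (({none} ∪ T' : Finset (Option ι)) : Set (Option ι))) :
    Small (LT K (vo v) (({none} ∪ T' : Finset (Option ι)) : Set (Option ι)))
      (∑ j ∈ Finset.range T'.card, (Fintype.card Λ - 1 - j)) := by
  classical
  have h1 := chain (K := K) (vo v) {none} (small_none v) (fun j => Fintype.card Λ - 1 - j) T' (by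
      intro T hT x hx hxT N hN
      obtain ⟨i, hi, rfl⟩ := hT' x hx
      have hind' : LinearIndepOn F (vo v) (({none} ∪ T : Finset (Option ι)) : Set (Option ι)) :=
        hind.mono (by
          rw [Finset.coe_subset]
          exact Finset.union_subset_union_right hT)
      have h3 := step_lin (K := K) hN (u := fun x : (({none} ∪ T : Finset (Option ι))) => vo v x)
        (w := vo v (some i))
        (fun x l => mem_LT (Finset.mem_coe.2 x.2) l) hind' (by
          rintro ⟨x, hx⟩
          rw [Finset.mem_union, Finset.mem_singleton] at hx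
          rcases hx with rfl | hx
          · have h4 := sum_eq_zero_of_two h2 (h i hi i hi)
            rw [← h4]
            refine Finset.sum_congr rfl fun l _ => ?_
            show 1 * v i l = v i l
            rw [one_mul]
          · obtain ⟨j, hj, rfl⟩ := hT' x (hT hx)
            exact h j hj i hi)
      rw [Fintype.card_coe, Finset.card_union_of_disjoint, Finset.card_singleton] at h3
      · refine h3.mono le_rfl ?_
        rw [Nat.sub_sub]
      · rw [Finset.disjoint_singleton_left]
        intro h4
        obtain ⟨i, _, hi⟩ := hT' _ (hT h4)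
        simp at hi)
  rwa [zero_add] at h1

theorem iso_bound_two (h2 : (2 : F) = 0) (v : ι → Λ → F) (S : Finset ι)
    (h : ∀ i ∈ S, ∀ j ∈ S, ∑ l, v i l * v j l = 0) (B : Finset ι) (hBS : B ⊆ S)
    (hB : LinearIndepOn F v (B : Set ι))
    (hB2 : ∀ i ∈ S, v i ∈ Submodule.span F (v '' (B : Set ι)))
    (hd : 2 * B.card ≤ Fintype.card Λ) :
    Small (LT K v (S : Set ι)) (∑ j ∈ Finset.range B.card, (Fintype.card Λ - 1 - j) +
      (S.card - B.card) * B.card) := by
  classical
  rcases isEmpty_or_nonempty Λ with hΛ | hΛ
  · refine small_bot.mono (LT_le ?_) (Nat.zero_le _)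
    intro i _ l
    exact hΛ.elim l
  have hone : (vo v none) ≠ 0 := by
    intro h0
    obtain ⟨l⟩ := hΛ
    exact one_ne_zero (congrFun h0 l)
  by_cases h1 : vo v none ∈ Submodule.span F (v '' (B : Set ι))
  · -- the span contains `(1, …, 1)`
    set S' : Finset (Option ι) := insert none (S.map Function.Embedding.some) with hS'
    obtain ⟨b, hb1, hb2, hb3, hb4⟩ := exists_basis (vo v) {none} S' (by
      rw [Finset.coe_singleton]
      exact (linearIndepOn_singleton_iff F).2 hone) (by
      rw [hS']
      simp)
    have hnb : none ∈ b := hb1 (Finset.mem_singleton_self _)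
    have hbu : {none} ∪ b.erase none = b := by
      rw [← Finset.insert_eq, Finset.insert_erase hnb]
    have hsome : ∀ x ∈ S', x ≠ none → ∃ i ∈ S, x = some i := by
      intro x hx hxn
      rw [hS', Finset.mem_insert, Finset.mem_map] at hx
      rcases hx with hx | ⟨i, hi, rfl⟩
      · exact absurd hx hxn
      · exact ⟨i, hi, rfl⟩
    have h3 := chain_two (K := K) h2 v S h (b.erase none) (by
      intro x hx
      exact hsome x (hb2 (Finset.mem_of_mem_erase hx)) (Finset.ne_of_mem_erase hx)) (by
      rw [hbu]; exact hb3)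
    rw [hbu, Finset.card_erase_of_mem hnb] at h3
    have h4 := chain (K := K) (vo v) b h3 (fun _ => b.card) (S' \ b) (by
      intro T hT i hi hiT N hN
      have h4 := step_span (K := K) hN (u := fun x : b => vo v x) (w := vo v i)
        (fun x l => mem_LT (by
          rw [Finset.coe_union]
          exact Or.inl (Finset.mem_coe.2 x.2)) l) (by
          have h5 := hb4 i (Finset.sdiff_subset hi)
          rw [Set.image_eq_range] at h5
          exact h5)
      rwa [Fintype.card_coe] at h4)
    rw [Finset.union_sdiff_of_subset hb2, Finset.sum_const, Finset.card_range, smul_eq_mul,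
      Finset.card_sdiff_of_subset hb2] at h4
    have hcS : S'.card = S.card + 1 := by
      rw [hS', Finset.card_insert_of_notMem (by simp), Finset.card_map]
    -- the two bases have the same cardinality
    have hspan : Submodule.span F (vo v '' (b : Set (Option ι))) =
        Submodule.span F (v '' (B : Set ι)) := by
      apply le_antisymm
      · rw [Submodule.span_le]
        rintro _ ⟨x, hx, rfl⟩
        by_cases hxn : x = none
        · rw [hxn]; exact h1
        · obtain ⟨i, hi, rfl⟩ := hsome x (hb2 (Finset.mem_coe.1 hx)) hxn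
          exact hB2 i hi
      · rw [Submodule.span_le]
        rintro _ ⟨i, hi, rfl⟩
        exact hb4 (some i) (by
          rw [hS', Finset.mem_insert, Finset.mem_map]
          exact Or.inr ⟨i, hBS (Finset.mem_coe.1 hi), rfl⟩)
    have hcard : b.card = B.card := by
      rw [← card_basis hb3, hspan, card_basis hB]
    rw [hcard, hcS] at h4
    refine h4.mono (LT_le ?_) ?_
    · intro i hi l
      have h5 : some i ∈ (S' : Set (Option ι)) := by
        rw [Finset.mem_coe, hS', Finset.mem_insert, Finset.mem_map]
        exact Or.inr ⟨i, Finset.mem_coe.1 hi, rfl⟩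
      exact mem_LT (v := vo v) h5 l
    · have hr : 1 ≤ B.card := by
        rw [← hcard]
        exact Finset.card_pos.2 ⟨none, hnb⟩
      have hle : B.card ≤ S.card := Finset.card_le_card hBS
      obtain ⟨r, hr'⟩ : ∃ r, B.card = r + 1 := ⟨B.card - 1, by omega⟩
      rw [hr'] at hle hd ⊢
      rw [Nat.add_sub_cancel, Finset.sum_range_succ]
      have h6 : S.card + 1 - (r + 1) = (S.card - (r + 1)) + 1 := by omega
      rw [h6, add_mul, one_mul]
      omega
  · -- it does not
    have h3 := chain_two (K := K) h2 v S h (B.map Function.Embedding.some) (by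
      intro x hx
      rw [Finset.mem_map] at hx
      obtain ⟨i, hi, rfl⟩ := hx
      exact ⟨i, hBS hi, rfl⟩) (by
      rw [← Finset.insert_eq, Finset.coe_insert, linearIndepOn_insert (by simp)]
      have himg : vo v '' ((B.map Function.Embedding.some : Finset (Option ι)) : Set (Option ι)) =
          v '' (B : Set ι) := by
        rw [Finset.coe_map, Set.image_image]
        rfl
      refine ⟨?_, by rw [himg]; exact h1⟩
      rw [Finset.coe_map]
      exact LinearIndepOn.image_of_comp Function.Embedding.some (vo v) hB)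
    rw [Finset.card_map] at h3
    have h4 := chain (K := K) (vo v) _ h3 (fun _ => B.card)
      ((S \ B).map Function.Embedding.some) (by
      intro T hT x hx hxT N hN
      rw [Finset.mem_map] at hx
      obtain ⟨i, hi, rfl⟩ := hx
      have h4 := step_span (K := K) hN (u := fun x : B => v x) (w := vo v (some i))
        (fun x l => mem_LT (v := vo v) (i := some x.1) (by
          rw [Finset.mem_coe, Finset.mem_union, Finset.mem_union, Finset.mem_map]
          exact Or.inl (Or.inr ⟨x.1, x.2, rfl⟩)) l) (by
          have h5 := hB2 i (Finset.sdiff_subset hi)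
          rw [Set.image_eq_range] at h5
          exact h5)
      rwa [Fintype.card_coe] at h4)
    rw [Finset.card_map, Finset.sum_const, Finset.card_range, smul_eq_mul,
      Finset.card_sdiff_of_subset hBS] at h4
    refine h4.mono (LT_le ?_) le_rfl
    intro i hi l
    have h5 : some i ∈ (({none} ∪ B.map Function.Embedding.some ∪
        (S \ B).map Function.Embedding.some : Finset (Option ι)) : Set (Option ι)) := by
      rw [Finset.mem_coe, Finset.mem_union, Finset.mem_union, Finset.mem_map, Finset.mem_map]
      by_cases hiB : i ∈ B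
      · exact Or.inl (Or.inr ⟨i, hiB, rfl⟩)
      · exact Or.inr ⟨i, Finset.mem_sdiff.2 ⟨Finset.mem_coe.1 hi, hiB⟩, rfl⟩
    exact mem_LT (v := vo v) h5 l

end Pool.Agent.T2H38.LSS
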