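import Pool.Agent.TH144.MB.Reg
import Pool.Agent.R948.Drop
import Pool.Agent.Helper834.EC.Dim1

/-!
# A form is a nonzerodivisor modulo a complete intersection as soon as all primes above are small
-/

set_option autoImplicit false

namespace Pool.Agent.T2H38.LSS

open MvPolynomial
open Pool.Agent.TH144.MB (lin Hom NZ)

/-- the transcendence degree drops along a surjection with nonzero kernel -/
theorem trdeg_succ_le {F A B : Type} [Field F] [CommRing A] [IsDomain A] [Algebra F A]
    [Algebra.FiniteType F A] [CommRing B] [IsDomain B] [Algebra F B] (f : A →ₐ[F] B)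
    (hf : Function.Surjective f) {r : A} (hr : r ≠ 0) (hr' : f r = 0) :
    Algebra.trdeg F B + 1 ≤ Algebra.trdeg F A := by
  have : Algebra.FiniteType F B := Algebra.FiniteType.of_surjective f hf
  obtain ⟨s, h1, h2⟩ := Pool.Agent.Helper834.EC.exists_ringKrullDim_eq_trdeg F A
  obtain ⟨s', h3, h4⟩ := Pool.Agent.Helper834.EC.exists_ringKrullDim_eq_trdeg F B
  have h5 := ringKrullDim_succ_le_of_surjective (f : A →+* B) hf
    (mem_nonZeroDivisors_of_ne_zero hr) hr'
  rw [h1, h3] at h5
  rw [h2, h4]
  exact_mod_cast h5

section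

variable {σ : Type} {K : Type} [Field K]

/-- the substitution `X i ↦ v i * T` -/
noncomputable def lineHom (v : σ → K) : MvPolynomial σ K →ₐ[K] Polynomial K :=
  aeval fun i => Polynomial.C (v i) * Polynomial.X

theorem lineHom_hom [Fintype σ] (v : σ → K) {p : MvPolynomial σ K} {n : ℕ}
    (hp : p.IsHomogeneous n) :
    lineHom v p = Polynomial.C (eval v p) * Polynomial.X ^ n := by
  classical
  rw [lineHom, aeval_def, eval₂_eq', eval_eq', map_sum, Finset.sum_mul]
  refine Finset.sum_congr rfl fun m hm => ?_
  have h1 : ∑ i, m i = n := by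
    have := hp (mem_support_iff.1 hm)
    rw [Finsupp.weight_apply, Finsupp.sum_fintype _ _ (by simp)] at this
    simpa using this
  rw [Polynomial.algebraMap_eq, map_mul, mul_assoc, map_prod]
  congr 1
  rw [← h1, ← Finset.prod_pow_eq_pow_sum, ← Finset.prod_mul_distrib]
  refine Finset.prod_congr rfl fun i _ => ?_
  rw [mul_pow, map_pow]

theorem lineHom_mem [Fintype σ] {J : Ideal (MvPolynomial σ K)} (hJ : Hom J) {v : σ → K}
    (hv : ∀ p ∈ J, eval v p = 0) : J ≤ RingHom.ker (lineHom v) := by
  intro p hp
  rw [RingHom.mem_ker, ← sum_homogeneousComponent p, map_sum]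
  refine Finset.sum_eq_zero fun n _ => ?_
  rw [lineHom_hom v (homogeneousComponent_isHomogeneous n p), hv _ (hJ p hp n)]
  simp

theorem trdeg_quot_ker_pos {v : σ → K} (hv : v ≠ 0) :
    ¬ Algebra.trdeg K (MvPolynomial σ K ⧸ RingHom.ker (lineHom v)) ≤ 0 := by
  intro h
  obtain ⟨i, hi⟩ : ∃ i, v i ≠ 0 := by
    by_contra hcon
    push Not at hcon
    exact hv (funext hcon)
  have h0 : Algebra.trdeg K (MvPolynomial σ K ⧸ RingHom.ker (lineHom v)) = 0 := le_antisymm h bot_le
  rw [trdeg_eq_zero_iff] at h0
  have h1 := h0.isAlgebraic (Ideal.Quotient.mk (RingHom.ker (lineHom v)) (X i))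
  have h2 := h1.algHom (Ideal.kerLiftAlg (lineHom v))
  have h3 : (Ideal.kerLiftAlg (lineHom v)) (Ideal.Quotient.mk (RingHom.ker (lineHom v)) (X i)) =
      Polynomial.C (v i) * Polynomial.X := by
    rw [Ideal.kerLiftAlg_mk, lineHom, aeval_X]
  rw [h3] at h2
  have h4 : IsAlgebraic K (Polynomial.X : Polynomial K) := by
    have h5 : (Polynomial.X : Polynomial K) =
        Polynomial.C (v i)⁻¹ * (Polynomial.C (v i) * Polynomial.X) := by
      rw [← mul_assoc, ← Polynomial.C_mul, inv_mul_cancel₀ hi, Polynomial.C_1, one_mul]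
    rw [h5]
    exact (isAlgebraic_algebraMap (v i)⁻¹).mul h2
  exact Polynomial.transcendental_X K h4

theorem sub_C_mem (p : MvPolynomial σ K) :
    p - C (constantCoeff p) ∈ Ideal.span (Set.range (X : σ → MvPolynomial σ K)) := by
  induction p using MvPolynomial.induction_on with
  | C a => simp
  | add p q hp hq =>
    have : p + q - C (constantCoeff (p + q)) =
        (p - C (constantCoeff p)) + (q - C (constantCoeff q)) := by
      rw [map_add, C_add]; ring
    rw [this]
    exact Ideal.add_mem _ hp hq
  | mul_X p i hp =>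
    rw [map_mul, constantCoeff_X, mul_zero, C_0, sub_zero]
    exact Ideal.mul_mem_left _ _ (Ideal.subset_span ⟨i, rfl⟩)

/-- enough linear forms cut a cone all of whose primes are small down to the origin -/
theorem exists_linear_forms [Fintype σ] [Infinite K] (D : ℕ) :
    ∀ J : Ideal (MvPolynomial σ K), Hom J →
      (∀ P : Ideal (MvPolynomial σ K), P.IsPrime → J ≤ P →
        Algebra.trdeg K (MvPolynomial σ K ⧸ P) ≤ D) →
      ∃ ls : List (σ → K), ls.length = D ∧ ∀ v : σ → K, (∀ p ∈ J, eval v p = 0) →
        (∀ a ∈ ls, eval v (lin a) = 0) → v = 0 := by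
  classical
  induction D with
  | zero =>
    intro J hJ hP
    refine ⟨[], rfl, fun v hv _ => ?_⟩
    by_contra hv0
    exact trdeg_quot_ker_pos hv0 (by
      simpa using hP _ (RingHom.ker_isPrime _) (lineHom_mem hJ hv))
  | succ D ih =>
    intro J hJ hP
    -- the linear forms in a minimal prime
    have hfin : (J.minimalPrimes).Finite := Ideal.finite_minimalPrimes_of_isNoetherianRing _ _
    let V : Ideal (MvPolynomial σ K) → Submodule K (σ → K) := fun P =>
      { carrier := {a | lin a ∈ P}
        add_mem' := by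
          intro a b ha hb
          have : (lin (a + b) : MvPolynomial σ K) = lin a + lin b := by
            simp [lin, add_mul, Finset.sum_add_distrib]
          show lin (a + b) ∈ P
          rw [this]
          exact P.add_mem ha hb
        zero_mem' := by
          show lin 0 ∈ P
          have : (lin (0 : σ → K) : MvPolynomial σ K) = 0 := by simp [lin]
          rw [this]
          exact P.zero_mem
        smul_mem' := by
          intro c a ha
          have : (lin (c • a) : MvPolynomial σ K) = C c * lin a := by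
            simp [lin, Finset.mul_sum, mul_assoc]
          show lin (c • a) ∈ P
          rw [this]
          exact P.mul_mem_left _ ha }
    have hV : ∀ P a, a ∈ V P ↔ lin a ∈ P := fun P a => Iff.rfl
    let s : Finset (Submodule K (σ → K)) := (hfin.toFinset.image V).erase ⊤
    obtain ⟨a, ha⟩ : ∃ a : σ → K, ∀ W ∈ s, a ∉ W := by
      have hne := Subspace.biUnion_ne_univ_of_top_notMem (s := s) (Finset.notMem_erase _ _)
      obtain ⟨c, hc⟩ := (Set.ne_univ_iff_exists_notMem _).mp hne
      refine ⟨c, fun W hW hcW => hc ?_⟩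
      exact Set.mem_biUnion (Finset.mem_coe.mpr hW) hcW
    have hkey : ∀ P ∈ J.minimalPrimes, lin a ∈ P → ∀ i, X i ∈ P := by
      intro P hPm haP i
      have htop : V P = ⊤ := by
        by_contra hne
        exact ha (V P) (Finset.mem_erase.2 ⟨hne, Finset.mem_image.2
          ⟨P, (Set.Finite.mem_toFinset _).2 hPm, rfl⟩⟩) haP
      have h1 : (Pi.single i 1 : σ → K) ∈ V P := by rw [htop]; trivial
      rw [hV] at h1
      have h2 : (lin (Pi.single i 1 : σ → K) : MvPolynomial σ K) = X i := by
        unfold lin
        rw [Finset.sum_eq_single i]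
        · simp
        · intro j _ hj
          simp [hj]
        · intro h; exact absurd (Finset.mem_univ i) h
      rwa [h2] at h1
    obtain ⟨ls, hls, hz⟩ := ih (J ⊔ Ideal.span {lin a})
      (Pool.Agent.TH144.MB.hom_sup hJ (Pool.Agent.TH144.MB.lin_hom a)) (by
        intro P' hP' hJP'
        have hJ' : J ≤ P' := le_trans le_sup_left hJP'
        have haP' : lin a ∈ P' := hJP' (Ideal.mem_sup_right (Ideal.subset_span rfl))
        obtain ⟨P, hPm, hPP'⟩ := Ideal.exists_minimalPrimes_le hJ'
        have hPp : P.IsPrime := hPm.1.1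
        by_cases haP : lin a ∈ P
        · have hX : ∀ i, X i ∈ P' := fun i => hPP' (hkey P hPm haP i)
          have h0 : Algebra.trdeg K (MvPolynomial σ K ⧸ P') = 0 := by
            rw [trdeg_eq_zero_iff]
            constructor
            intro x
            obtain ⟨p, rfl⟩ := Ideal.Quotient.mk_surjective x
            have h1 : Ideal.Quotient.mk P' p = algebraMap K _ (constantCoeff p) := by
              have h2 : Ideal.Quotient.mk P' p = Ideal.Quotient.mk P' (C (constantCoeff p)) := by
                rw [Ideal.Quotient.mk_eq_mk_iff_sub_mem]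
                have h3 : p - C (constantCoeff p) ∈ Ideal.span (Set.range (X : σ → MvPolynomial σ K)) := by
                  exact sub_C_mem p
                exact (Ideal.span_le.2 (by rintro _ ⟨i, rfl⟩; exact hX i)) h3
              rw [h2]
              rfl
            rw [h1]
            exact isAlgebraic_algebraMap _
          rw [h0]
          exact bot_le
        · have h1 := hP P hPp hPm.1.2
          have h2 := trdeg_succ_le (Ideal.Quotient.factorₐ K hPP')
            (Ideal.Quotient.factor_surjective hPP')
            (r := Ideal.Quotient.mk P (lin a)) (by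
              rw [Ne, Ideal.Quotient.eq_zero_iff_mem]
              exact haP) (by
              rw [Ideal.Quotient.factorₐ_apply_mk, Ideal.Quotient.eq_zero_iff_mem]
              exact haP')
          have h3 := h2.trans h1
          push_cast at h3
          exact (Cardinal.add_one_le_add_one_iff).1 h3)
    refine ⟨a :: ls, by simp [hls], fun v hv hv' => hz v ?_ fun b hb => hv' b (by simp [hb])⟩
    intro p hp
    obtain ⟨q, hq⟩ := Pool.Agent.TH144.MB.mem_sup_iff.1 hp
    have h1 := hv _ hq
    rw [map_sub, map_mul, hv' a (by simp), zero_mul, sub_zero] at h1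
    exact h1

theorem ext_eq (fs : List (MvPolynomial σ K)) : ∀ I : Ideal (MvPolynomial σ K),
    Pool.Agent.TH144.MB.ext I fs = I ⊔ Ideal.span {x | x ∈ fs} := by
  induction fs with
  | nil => intro I; simp [Pool.Agent.TH144.MB.ext]
  | cons f fs ih =>
    intro I
    rw [Pool.Agent.TH144.MB.ext_cons, ih, sup_assoc, ← Ideal.span_union]
    congr 2
    ext x
    simp [or_comm]

/-- **A form is a nonzerodivisor modulo `fs` if all primes containing `fs` and the form are of the
dimension expected of `fs` and the form.** -/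
theorem nz_of_trdeg [Fintype σ] [IsAlgClosed K] (fs : List (MvPolynomial σ K × ℕ))
    (hfs : ∀ x ∈ fs, x.1.IsHomogeneous x.2 ∧ 0 < x.2) (h : MvPolynomial σ K) (m : ℕ)
    (hh : h.IsHomogeneous m) (hm : 0 < m) (D : ℕ) (hD : fs.length + 1 + D = Fintype.card σ)
    (hP : ∀ P : Ideal (MvPolynomial σ K), P.IsPrime → (∀ x ∈ fs, x.1 ∈ P) → h ∈ P →
      Algebra.trdeg K (MvPolynomial σ K ⧸ P) ≤ D) :
    NZ h (Ideal.span {x | x ∈ fs.map Prod.fst}) := by
  classical
  have := IsAlgClosed.instInfinite (K := K)
  set gs : List (MvPolynomial σ K × ℕ) := fs ++ [(h, m)] with hgs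
  have hgs' : ∀ x ∈ gs, x.1.IsHomogeneous x.2 ∧ 0 < x.2 := by
    intro x hx
    rw [hgs, List.mem_append, List.mem_singleton] at hx
    rcases hx with hx | rfl
    · exact hfs x hx
    · exact ⟨hh, hm⟩
  set J : Ideal (MvPolynomial σ K) := Pool.Agent.TH144.MB.ext ⊥ (gs.map Prod.fst) with hJ
  have hJe : J = Ideal.span {x | x ∈ gs.map Prod.fst} := by rw [hJ, ext_eq, bot_sup_eq]
  obtain ⟨ls, hls, hz⟩ := exists_linear_forms D J
    (Pool.Agent.TH144.MB.hom_ext _ _ Pool.Agent.TH144.MB.hom_bot (by
      intro f hf
      obtain ⟨x, hx, rfl⟩ := List.mem_map.1 hf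
      exact ⟨_, (hgs' x hx).1⟩)) (by
      intro P hPp hJP
      rw [hJe, Ideal.span_le] at hJP
      refine hP P hPp (fun x hx => hJP ?_) (hJP ?_)
      · exact List.mem_map_of_mem (by rw [hgs, List.mem_append]; exact Or.inl hx)
      · exact List.mem_map.2 ⟨(h, m), by rw [hgs]; simp, rfl⟩)
  obtain ⟨h1, -⟩ := Pool.Agent.TH144.MB.square (gs ++ ls.map fun a => (lin a, 1)) [] (by
      intro x hx
      rcases List.mem_append.1 hx with hx | hx
      · exact hgs' x hx
      · obtain ⟨a, -, rfl⟩ := List.mem_map.1 hx
        exact ⟨Pool.Agent.TH144.MB.lin_hom a, one_pos⟩) (by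
      simp only [List.length_nil, hgs, List.length_append, List.length_map, List.length_cons, hls]
      omega) (by
      intro v _ hv
      refine hz v ?_ ?_
      · rw [hJ]
        refine (Pool.Agent.TH144.MB.zero_ext _ _ v).2 ⟨by simp, ?_⟩
        intro f hf
        obtain ⟨x, hx, rfl⟩ := List.mem_map.1 hf
        exact hv x (List.mem_append_left _ hx)
      · intro a ha
        exact hv (lin a, 1) (List.mem_append_right _ (List.mem_map.2 ⟨a, ha, rfl⟩)))
  rw [List.map_nil, List.nil_append, List.map_append, hgs, List.map_append, List.append_assoc,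
    Pool.Agent.TH144.MB.reg_append] at h1
  have h2 := h1.2.1
  rwa [ext_eq, bot_sup_eq] at h2

end

end Pool.Agent.T2H38.LSS
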