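import Pool.Agent.R948.Drop
import Pool.Agent.T2H38.LSS.Nzd

/-!
# A prime containing given elements of a prime whose dimension drops by at most their number
-/

set_option autoImplicit false
set_option linter.style.haveILetI false

namespace Pool.Agent.T2H38.LSS

open MvPolynomial

theorem krull (F : Type) [Field F] : ∀ (N : ℕ) (A : Type) [CommRing A] [IsDomain A] [Algebra F A]
    [Algebra.FiniteType F A] (M : Ideal A) [M.IsPrime] (fs : List A), fs.length = N →
    (∀ f ∈ fs, f ∈ M) →
    ∃ P : Ideal A, P.IsPrime ∧ (∀ f ∈ fs, f ∈ P) ∧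
      Algebra.trdeg F A ≤ Algebra.trdeg F (A ⧸ P) + N := by
  intro N
  induction N with
  | zero =>
    intro A _ _ _ _ M _ fs hfs _
    rw [List.length_eq_zero_iff] at hfs
    subst hfs
    refine ⟨⊥, Ideal.isPrime_bot, by simp, ?_⟩
    rw [(AlgEquiv.quotientBot F A).trdeg_eq]
    simp
  | succ N ih =>
    intro A _ _ _ _ M _ fs hfs hM
    obtain ⟨f, fs, rfl⟩ : ∃ f fs', fs = f :: fs' := by
      cases fs with
      | nil => simp at hfs
      | cons f fs => exact ⟨f, fs, rfl⟩
    have hfM : Ideal.span {f} ≤ M := by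
      rw [Ideal.span_le, Set.singleton_subset_iff]
      exact hM f (by simp)
    obtain ⟨Q, hQ, hQM⟩ := Ideal.exists_minimalPrimes_le hfM
    have hQp : Q.IsPrime := hQ.1.1
    have h1 := Pool.Agent.R948.trdeg_le_of_minimal (F := F) f Q hQ
    have hsurj : Function.Surjective (Ideal.Quotient.mk Q) := Ideal.Quotient.mk_surjective
    have hM' : (M.map (Ideal.Quotient.mk Q)).IsPrime :=
      Ideal.map_isPrime_of_surjective hsurj (by rw [Ideal.mk_ker]; exact hQM)
    obtain ⟨P', hP', h2, h3⟩ := ih (A ⧸ Q) (M.map (Ideal.Quotient.mk Q))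
      (fs.map (Ideal.Quotient.mk Q)) (by simpa using hfs) (by
        intro g hg
        obtain ⟨x, hx, rfl⟩ := List.mem_map.1 hg
        exact Ideal.mem_map_of_mem _ (hM x (by simp [hx])))
    let ψ : A →ₐ[F] ((A ⧸ Q) ⧸ P') := (Ideal.Quotient.mkₐ F P').comp (Ideal.Quotient.mkₐ F Q)
    have hψ : Function.Surjective ψ := by
      intro x
      obtain ⟨y, rfl⟩ := Ideal.Quotient.mk_surjective x
      obtain ⟨z, rfl⟩ := Ideal.Quotient.mk_surjective y
      exact ⟨z, rfl⟩
    have h4 : Algebra.trdeg F (A ⧸ RingHom.ker ψ) = Algebra.trdeg F ((A ⧸ Q) ⧸ P') :=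
      (Ideal.quotientKerAlgEquivOfSurjective hψ).trdeg_eq
    refine ⟨RingHom.ker ψ, RingHom.ker_isPrime ψ, ?_, ?_⟩
    · intro g hg
      rw [RingHom.mem_ker]
      show Ideal.Quotient.mk P' (Ideal.Quotient.mk Q g) = 0
      rcases List.mem_cons.1 hg with rfl | hg
      · have : Ideal.Quotient.mk Q g = 0 :=
          Ideal.Quotient.eq_zero_iff_mem.2 (hQ.1.2 (Ideal.mem_span_singleton_self g))
        rw [this, map_zero]
      · exact Ideal.Quotient.eq_zero_iff_mem.2 (h2 _ (List.mem_map_of_mem hg))
    · rw [h4]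
      refine h1.trans ?_
      push_cast
      rw [← add_assoc]
      gcongr

/-- matrices `S` with `S Sᵀ = -1` -/
theorem exists_matrix_prime (K : Type) [Field K] {ω : K} (hω : ω * ω = -1) (r d' : ℕ)
    (hrd : r ≤ d') :
    ∃ P : Ideal (MvPolynomial (Fin r × Fin d') K), P.IsPrime ∧
      (∀ a b : Fin r, (∑ l, X (a, l) * X (b, l) + (if a = b then 1 else 0)) ∈ P) ∧
      ((r * d' : ℕ) : Cardinal) ≤ Algebra.trdeg K (MvPolynomial (Fin r × Fin d') K ⧸ P) +
        ((r * (r + 1) / 2 : ℕ) : Cardinal) := by
  classical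
  let g : Fin r → Fin r → MvPolynomial (Fin r × Fin d') K := fun a b =>
    ∑ l, X (a, l) * X (b, l) + (if a = b then 1 else 0)
  have hgc : ∀ a b, g a b = g b a := by
    intro a b
    show _ + _ = _ + _
    congr 1
    · exact Finset.sum_congr rfl fun l _ => mul_comm _ _
    · by_cases h : a = b
      · rw [if_pos h, if_pos h.symm]
      · rw [if_neg h, if_neg (Ne.symm h)]
  let s0 : Fin r × Fin d' → K := fun p => if p.1.1 = p.2.1 then ω else 0
  let M : Ideal (MvPolynomial (Fin r × Fin d') K) := RingHom.ker (eval s0)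
  have hMp : M.IsPrime := RingHom.ker_isPrime _
  have hgM : ∀ a b, g a b ∈ M := by
    intro a b
    rw [RingHom.mem_ker]
    show eval s0 (∑ l, X (a, l) * X (b, l) + (if a = b then 1 else 0)) = 0
    rw [map_add, map_sum, Finset.sum_eq_single (⟨a.1, by have := a.2; omega⟩ : Fin d')]
    · rw [map_mul, eval_X, eval_X]
      by_cases h : a = b
      · subst h
        simp [s0, hω]
      · have h' : b.1 ≠ a.1 := fun h1 => h (Fin.ext h1.symm)
        simp [s0, h, h']
    · intro l _ hl
      rw [map_mul, eval_X, eval_X]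
      have : a.1 ≠ l.1 := fun h => hl (Fin.ext h.symm)
      simp [s0, this]
    · intro h; exact absurd (Finset.mem_univ _) h
  set L : List (MvPolynomial (Fin r × Fin d') K) :=
    (Finset.univ.filter fun p : Fin r × Fin r => p.1 ≤ p.2).toList.map (fun p => g p.1 p.2)
    with hL
  have hlen : L.length = r * (r + 1) / 2 := by
    rw [hL, List.length_map, Finset.length_toList]
    have h1 : (Finset.univ.filter fun p : Fin r × Fin r => p.1 ≤ p.2) =
        (Finset.univ.filter fun p : Fin r × Fin r => p.1 < p.2) ∪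
          (Finset.univ : Finset (Fin r)).diag := by
      ext ⟨a, b⟩
      simp only [Finset.mem_filter, Finset.mem_univ, true_and, Finset.mem_union,
        Finset.mem_diag]
      exact le_iff_lt_or_eq
    have h2 : (Finset.univ.filter fun p : Fin r × Fin r => p.1 < p.2).card =
        (Finset.univ.filter fun p : Fin r × Fin r => p.2 < p.1).card := by
      refine Finset.card_bij (fun p _ => (p.2, p.1)) ?_ ?_ ?_
      · intro p hp
        simpa using hp
      · rintro ⟨a, b⟩ _ ⟨c, d⟩ _ h
        simp only [Prod.mk.injEq] at h ⊢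
        exact ⟨h.2, h.1⟩
      · rintro ⟨a, b⟩ hp
        exact ⟨(b, a), by simpa using hp, rfl⟩
    have h3 : (Finset.univ : Finset (Fin r)).offDiag =
        (Finset.univ.filter fun p : Fin r × Fin r => p.1 < p.2) ∪
        (Finset.univ.filter fun p : Fin r × Fin r => p.2 < p.1) := by
      ext ⟨a, b⟩
      simp only [Finset.mem_offDiag, Finset.mem_univ, true_and, Finset.mem_union,
        Finset.mem_filter]
      exact lt_or_lt_iff_ne.symm
    have h4 := Finset.offDiag_card (Finset.univ : Finset (Fin r))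
    rw [h3, Finset.card_union_of_disjoint (by
      rw [Finset.disjoint_left]
      rintro ⟨a, b⟩ h4 h5
      simp only [Finset.mem_filter, Finset.mem_univ, true_and] at h4 h5
      exact lt_asymm h4 h5), ← h2, Finset.card_univ, Fintype.card_fin] at h4
    rw [h1, Finset.card_union_of_disjoint (by
      rw [Finset.disjoint_left]
      rintro ⟨a, b⟩ h4 h5
      simp only [Finset.mem_filter, Finset.mem_univ, true_and, Finset.mem_diag] at h4 h5
      exact h4.ne h5), Finset.diag_card, Finset.card_univ, Fintype.card_fin]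
    have h5 : r ≤ r * r := Nat.le_mul_self r
    have h6 : r * (r + 1) = r * r + r := by ring
    omega
  obtain ⟨P, hP, h1, h2⟩ := krull K (r * (r + 1) / 2) (MvPolynomial (Fin r × Fin d') K) M L hlen (by
    intro f hf
    rw [hL] at hf
    obtain ⟨p, _, rfl⟩ := List.mem_map.1 hf
    exact hgM p.1 p.2)
  have hgP : ∀ a b : Fin r, a ≤ b → g a b ∈ P := by
    intro a b hab
    apply h1
    rw [hL, List.mem_map]
    exact ⟨(a, b), by rw [Finset.mem_toList, Finset.mem_filter]; exact ⟨Finset.mem_univ _, hab⟩, rfl⟩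
  refine ⟨P, hP, ?_, ?_⟩
  · intro a b
    rcases le_total a b with h | h
    · exact hgP a b h
    · have := hgP b a h
      rw [hgc] at this
      exact this
  · refine le_trans ?_ h2
    rw [MvPolynomial.trdeg_of_isDomain]
    simp

end Pool.Agent.T2H38.LSS
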