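import Pool.Agent.T2H38.LSS.GramSchmidt

/-!
# Descent of nonzerodivisors and primality above the threshold
-/

set_option autoImplicit false
set_option linter.style.haveILetI false

namespace Pool.Agent.T2H38.LSS

open MvPolynomial

theorem mem_of_map_mem {k K σ : Type} [Field k] [Field K] [Algebra k K]
    {I : Ideal (MvPolynomial σ k)} {x : MvPolynomial σ k}
    (hx : MvPolynomial.map (algebraMap k K) x ∈ I.map (MvPolynomial.map (algebraMap k K))) :
    x ∈ I := by
  classical
  obtain ⟨ρ, hρ⟩ := (Algebra.linearMap k K).exists_leftInverse_of_injective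
    (LinearMap.ker_eq_bot.2 (algebraMap k K).injective)
  have hρ1 : ρ 1 = 1 := by
    have := LinearMap.congr_fun hρ 1
    simpa using this
  let θ : MvPolynomial σ K → MvPolynomial σ k := fun p =>
    ∑ m ∈ p.support, monomial m (ρ (coeff m p))
  have hθ : ∀ p m, coeff m (θ p) = ρ (coeff m p) := by
    intro p m
    show coeff m (∑ m ∈ p.support, monomial m (ρ (coeff m p))) = _
    rw [coeff_sum]
    simp only [coeff_monomial]
    rw [Finset.sum_ite_eq' p.support m]
    by_cases hm : m ∈ p.support
    · rw [if_pos hm]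
    · rw [if_neg hm, notMem_support_iff.1 hm, map_zero]
  have hmul : ∀ (a : MvPolynomial σ K) (f : MvPolynomial σ k),
      θ (a * MvPolynomial.map (algebraMap k K) f) = θ a * f := by
    intro a f
    ext m
    rw [hθ, coeff_mul, coeff_mul, map_sum]
    refine Finset.sum_congr rfl fun p _ => ?_
    rw [coeff_map, hθ, mul_comm, ← Algebra.smul_def, map_smul, smul_eq_mul, mul_comm]
  have hadd : ∀ a b, θ (a + b) = θ a + θ b := by
    intro a b
    ext m
    rw [hθ, coeff_add, coeff_add, map_add, hθ, hθ]
  have hzero : θ 0 = 0 := by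
    ext m
    rw [hθ, coeff_zero, map_zero, coeff_zero]
  have key : ∀ y ∈ I.map (MvPolynomial.map (algebraMap k K)), ∀ a, θ (a * y) ∈ I := by
    intro y hy
    induction hy using Submodule.span_induction with
    | mem y hy =>
      obtain ⟨f, hf, rfl⟩ := hy
      intro a
      rw [hmul]
      exact I.mul_mem_left _ hf
    | zero => intro a; rw [mul_zero, hzero]; exact I.zero_mem
    | add x y _ _ hx hy => intro a; rw [mul_add, hadd]; exact I.add_mem (hx a) (hy a)
    | smul b y _ hy =>
      intro a
      rw [smul_eq_mul, ← mul_assoc]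
      exact hy (a * b)
  have h1 := key _ hx 1
  rw [hmul] at h1
  have h2 : θ 1 = 1 := by
    ext m
    rw [hθ, coeff_one, coeff_one]
    by_cases hm : 0 = m
    · rw [if_pos hm, if_pos hm, hρ1]
    · rw [if_neg hm, if_neg hm, map_zero]
  rwa [h2, one_mul] at h1

section

variable (k : Type) [Field k]

theorem map_ff {K : Type} [Field K] [Algebra k K] {ι Λ : Type} [Fintype Λ] (i j : ι) :
    MvPolynomial.map (algebraMap k K) (ff k i j : MvPolynomial (ι × Λ) k) = ff K i j := by
  unfold ff
  simp only [map_sum, map_mul, map_X]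

theorem map_II {K : Type} [Field K] [Algebra k K] (n d : ℕ) :
    (II k n d).map (MvPolynomial.map (algebraMap k K)) = II K n d := by
  unfold II
  rw [Ideal.map_span]
  congr 1
  ext p
  constructor
  · rintro ⟨_, ⟨i, j, hij, rfl⟩, rfl⟩
    exact ⟨i, j, hij, map_ff k i j⟩
  · rintro ⟨i, j, hij, rfl⟩
    exact ⟨_, ⟨i, j, hij, rfl⟩, map_ff k i j⟩

/-- **Primality above the threshold.** -/
theorem prime_of_good {n d : ℕ} (hg : Good n d) (hnd : n ≤ d) : (II k n d).IsPrime := by
  refine isPrime_of_nz hnd fun i p hp => ?_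
  apply mem_of_map_mem (K := AlgebraicClosure k)
  rw [map_II]
  refine nz_ff hg hnd i _ ?_
  rw [← map_ff k (K := AlgebraicClosure k) i i, ← map_mul, ← map_II k n d]
  exact Ideal.mem_map_of_mem _ hp

end

end Pool.Agent.T2H38.LSS
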