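import Pool.Agent.T2H38.LSS.Krull
import Pool.Agent.T2H38.LSS.Main1

/-!
# A large prime consisting of vectors in an isotropic subspace
-/

set_option autoImplicit false
set_option linter.style.haveILetI false

namespace Pool.Agent.T2H38.LSS

open MvPolynomial

section

variable {A : Type} [CommRing A] (n m r d' : ℕ)

/-- the parameters -/
abbrev Kap (n m r d' : ℕ) : Type :=
  ({j : Fin n // ¬ j.1 < m} × Fin r) ⊕ ({j : Fin n // j.1 < m} × Fin d')

/-- the vectors -/
noncomputable def vec (s : Fin r → Fin d' → A) (j : Fin n) :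
    Fin r ⊕ Fin d' → MvPolynomial (Kap n m r d') A :=
  if h : j.1 < m then
    Sum.elim (fun a => - ∑ l, C (s a l) * X (Sum.inr (⟨j, h⟩, l))) (fun l => X (Sum.inr (⟨j, h⟩, l)))
  else
    Sum.elim (fun a => X (Sum.inl (⟨j, h⟩, a))) (fun l => ∑ a, X (Sum.inl (⟨j, h⟩, a)) * C (s a l))

variable {n m r d'}

theorem vec_lt (s : Fin r → Fin d' → A) {j : Fin n} (h : j.1 < m) : vec n m r d' s j =
    Sum.elim (fun a => - ∑ l, C (s a l) * X (Sum.inr (⟨j, h⟩, l)))
      (fun l => X (Sum.inr (⟨j, h⟩, l))) := by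
  unfold vec
  rw [dif_pos h]

theorem vec_ge (s : Fin r → Fin d' → A) {j : Fin n} (h : ¬ j.1 < m) : vec n m r d' s j =
    Sum.elim (fun a => X (Sum.inl (⟨j, h⟩, a)))
      (fun l => ∑ a, X (Sum.inl (⟨j, h⟩, a)) * C (s a l)) := by
  unfold vec
  rw [dif_neg h]

theorem vec_dot_ge (s : Fin r → Fin d' → A)
    (hs : ∀ a b, ∑ l, s a l * s b l + (if a = b then 1 else 0) = 0) {i j : Fin n}
    (hi : ¬ i.1 < m) (hj : ¬ j.1 < m) :
    ∑ l, vec n m r d' s i l * vec n m r d' s j l = 0 := by
  classical
  rw [vec_ge s hi, vec_ge s hj, Fintype.sum_sum_type]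
  simp only [Sum.elim_inl, Sum.elim_inr]
  have h1 : ∀ l : Fin d', (∑ a, (X (Sum.inl (⟨i, hi⟩, a)) : MvPolynomial (Kap n m r d') A) *
      C (s a l)) * (∑ b, X (Sum.inl (⟨j, hj⟩, b)) * C (s b l)) =
      ∑ a, ∑ b, X (Sum.inl (⟨i, hi⟩, a)) * X (Sum.inl (⟨j, hj⟩, b)) * C (s a l * s b l) := by
    intro l
    rw [Finset.sum_mul_sum]
    refine Finset.sum_congr rfl fun a _ => Finset.sum_congr rfl fun b _ => ?_
    rw [map_mul]
    ring
  rw [Finset.sum_congr rfl fun l _ => h1 l, Finset.sum_comm]
  rw [← Finset.sum_add_distrib]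
  refine Finset.sum_eq_zero fun a _ => ?_
  rw [Finset.sum_comm]
  have h2 : ∀ b : Fin r, ∑ l : Fin d', (X (Sum.inl (⟨i, hi⟩, a)) : MvPolynomial (Kap n m r d') A) *
      X (Sum.inl (⟨j, hj⟩, b)) * C (s a l * s b l) =
      - (if a = b then X (Sum.inl (⟨i, hi⟩, a)) * X (Sum.inl (⟨j, hj⟩, b)) else 0) := by
    intro b
    rw [← Finset.mul_sum, ← map_sum]
    have h3 : ∑ l, s a l * s b l = - (if a = b then 1 else 0) := eq_neg_of_add_eq_zero_left (hs a b)
    rw [h3]
    by_cases hab : a = b
    · rw [if_pos hab, if_pos hab, map_neg, C_1]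
      ring
    · rw [if_neg hab, if_neg hab, neg_zero, C_0]
      ring
  rw [Finset.sum_congr rfl fun b _ => h2 b, Finset.sum_neg_distrib, Finset.sum_ite_eq,
    if_pos (Finset.mem_univ a)]
  ring

theorem vec_dot_lt (s : Fin r → Fin d' → A) {i j : Fin n}
    (hi : ¬ i.1 < m) (hj : j.1 < m) :
    ∑ l, vec n m r d' s i l * vec n m r d' s j l = 0 := by
  classical
  rw [vec_ge s hi, vec_lt s hj, Fintype.sum_sum_type]
  simp only [Sum.elim_inl, Sum.elim_inr]
  have h1 : ∀ a : Fin r, (X (Sum.inl (⟨i, hi⟩, a)) : MvPolynomial (Kap n m r d') A) *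
      -∑ l, C (s a l) * X (Sum.inr (⟨j, hj⟩, l)) =
      - ∑ l, X (Sum.inl (⟨i, hi⟩, a)) * C (s a l) * X (Sum.inr (⟨j, hj⟩, l)) := by
    intro a
    rw [mul_neg, Finset.mul_sum]
    congr 1
    exact Finset.sum_congr rfl fun l _ => by ring
  rw [Finset.sum_congr rfl fun a _ => h1 a, Finset.sum_neg_distrib, Finset.sum_comm]
  simp only [Finset.sum_mul]
  ring

theorem vec_dot (s : Fin r → Fin d' → A)
    (hs : ∀ a b, ∑ l, s a l * s b l + (if a = b then 1 else 0) = 0) (hm : m ≤ 1) {i j : Fin n}
    (hij : i ≠ j) : ∑ l, vec n m r d' s i l * vec n m r d' s j l = 0 := by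
  by_cases hi : i.1 < m
  · by_cases hj : j.1 < m
    · exact absurd (Fin.ext (by omega)) hij
    · rw [← vec_dot_lt s hj hi]
      exact Finset.sum_congr rfl fun _ _ => mul_comm _ _
  · by_cases hj : j.1 < m
    · exact vec_dot_lt s hi hj
    · exact vec_dot_ge s hs hi hj

end

section

/-- an element with a nonzero multiple in `B` is algebraic over `B` -/
theorem isAlgebraic_of_mul_mem {k G : Type} [Field k] [CommRing G] [IsDomain G] [Algebra k G]
    {B : Subalgebra k G} {b x : G} (hb : b ∈ B) (hb0 : b ≠ 0) (hx : b * x ∈ B) :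
    IsAlgebraic B x := by
  refine ⟨Polynomial.C (⟨b, hb⟩ : B) * Polynomial.X - Polynomial.C (⟨b * x, hx⟩ : B), ?_, ?_⟩
  · intro h
    have h1 := congrArg (fun p => Polynomial.coeff p 1) h
    simp only [Polynomial.coeff_sub, Polynomial.coeff_C_mul, Polynomial.coeff_X_one, mul_one,
      Polynomial.coeff_zero] at h1
    rw [Polynomial.coeff_C_of_ne_zero one_ne_zero, sub_zero] at h1
    exact hb0 (congrArg Subtype.val h1)
  · rw [map_sub, map_mul, Polynomial.aeval_C, Polynomial.aeval_C, Polynomial.aeval_X]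
    exact sub_self _

variable (k : Type) [Field k] {n m r d' : ℕ}

/-- the dimension of the image of the parametrisation -/
theorem trdeg_image {d : ℕ} {A : Type} [CommRing A] [IsDomain A] {K : Type} [Field K] [Algebra k K]
    [Algebra.IsAlgebraic k K] [Algebra K A] [Algebra k A] [IsScalarTower k K A]
    (s : Fin r → Fin d' → A)
    (hsgen : Algebra.adjoin K (Set.range fun p : Fin r × Fin d' => s p.1 p.2) = ⊤)
    (e : Fin d ≃ Fin r ⊕ Fin d') (hn : m + r ≤ n)
    (Ψ : MvPolynomial (Fin n × Fin d) k →ₐ[k] MvPolynomial (Kap n m r d') A)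
    (hΨ : ∀ j l, Ψ (X (j, l)) = vec n m r d' s j (e l)) :
    Algebra.trdeg K A + (((n - m) * r + m * d' : ℕ) : Cardinal) ≤
      Algebra.trdeg k (MvPolynomial (Fin n × Fin d) k ⧸ RingHom.ker Ψ) := by
  classical
  have hAi : Function.Injective (algebraMap K A) := (algebraMap K A).injective
  have h1 : Algebra.trdeg k (MvPolynomial (Fin n × Fin d) k ⧸ RingHom.ker Ψ) =
      Algebra.trdeg k Ψ.range := (Ideal.quotientKerEquivRange Ψ).trdeg_eq
  -- the big ring is algebraic over the image
  set B := Ψ.range with hB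
  have hmemB : ∀ (j : Fin n) (x : Fin r ⊕ Fin d'), vec n m r d' s j x ∈ B := by
    intro j x
    exact ⟨X (j, e.symm x), by
      have := hΨ j (e.symm x)
      rw [Equiv.apply_symm_apply] at this
      exact this⟩
  have hX1 : ∀ (j : {j : Fin n // ¬ j.1 < m}) (a : Fin r),
      (X (Sum.inl (j, a)) : MvPolynomial (Kap n m r d') A) ∈ B := by
    intro j a
    have := hmemB j.1 (Sum.inl a)
    rwa [vec_ge s j.2] at this
  have hX2 : ∀ (j : {j : Fin n // j.1 < m}) (l : Fin d'),
      (X (Sum.inr (j, l)) : MvPolynomial (Kap n m r d') A) ∈ B := by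
    intro j l
    have := hmemB j.1 (Sum.inr l)
    rwa [vec_lt s j.2] at this
  -- the generic square matrix
  let jj : Fin r → {j : Fin n // ¬ j.1 < m} := fun b => ⟨⟨m + b.1, by have := b.2; omega⟩, by simp⟩
  have hjj : Function.Injective jj := by
    intro a b hab
    have h2 : m + a.1 = m + b.1 := congrArg (fun z => z.1.1) hab
    exact Fin.ext (by omega)
  let Xm : Matrix (Fin r) (Fin r) (MvPolynomial (Kap n m r d') A) :=
    Matrix.of fun b a => X (Sum.inl (jj b, a))
  let XB : Matrix (Fin r) (Fin r) B := Matrix.of fun b a => ⟨X (Sum.inl (jj b, a)), hX1 _ _⟩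
  have hXB : Xm = (B.val : B →+* MvPolynomial (Kap n m r d') A).mapMatrix XB := by
    ext1 b a
    rfl
  have hdetB : Xm.det ∈ B := by
    rw [hXB, ← RingHom.map_det]
    exact XB.det.2
  have hdet0 : Xm.det ≠ 0 := by
    intro h
    let φ : MvPolynomial (Kap n m r d') A →+* A := eval (Sum.elim
      (fun p => if p.1 = jj p.2 then 1 else 0) (fun _ => 0))
    have h2 := congrArg φ h
    rw [RingHom.map_det, map_zero] at h2
    have h3 : φ.mapMatrix Xm = 1 := by
      ext b a
      rw [RingHom.mapMatrix_apply, Matrix.map_apply]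
      show eval _ (X (Sum.inl (jj b, a))) = _
      rw [eval_X, Sum.elim_inl]
      by_cases hab : b = a
      · subst hab
        simp
      · rw [if_neg (fun h => hab (hjj h)), Matrix.one_apply_ne hab]
    rw [h3, Matrix.det_one] at h2
    exact one_ne_zero h2
  have hadjB : ∀ a b, Xm.adjugate a b ∈ B := by
    intro a b
    rw [hXB, ← RingHom.map_adjugate]
    exact (XB.adjugate a b).2
  have hsB : ∀ a l, Xm.det * (C (s a l) : MvPolynomial (Kap n m r d') A) ∈ B := by
    intro a l
    let S : Matrix (Fin r) (Fin d') (MvPolynomial (Kap n m r d') A) :=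
      Matrix.of fun a l => C (s a l)
    have h2 : Xm.det * (C (s a l) : MvPolynomial (Kap n m r d') A) =
        (Xm.adjugate * (Xm * S)) a l := by
      rw [← Matrix.mul_assoc, Matrix.adjugate_mul, Matrix.smul_mul, Matrix.one_mul]
      rfl
    rw [h2, Matrix.mul_apply]
    refine Subalgebra.sum_mem _ fun b _ => Subalgebra.mul_mem _ (hadjB a b) ?_
    have h3 := hmemB (jj b).1 (Sum.inr l)
    rw [vec_ge s (jj b).2] at h3
    exact h3
  have hFB : FaithfulSMul k B := by
    rw [faithfulSMul_iff_algebraMap_injective]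
    exact (algebraMap k B).injective
  have hcl : ∀ a : A, IsAlgebraic B (C a : MvPolynomial (Kap n m r d') A) := by
    intro a
    have ha : a ∈ Algebra.adjoin K (Set.range fun p : Fin r × Fin d' => s p.1 p.2) := by
      rw [hsgen]; trivial
    induction ha using Algebra.adjoin_induction with
    | mem x hx =>
      obtain ⟨p, rfl⟩ := hx
      exact isAlgebraic_of_mul_mem hdetB hdet0 (hsB p.1 p.2)
    | algebraMap c =>
      have h2 : IsAlgebraic k c := Algebra.IsAlgebraic.isAlgebraic c
      have h3 : IsAlgebraic k (algebraMap K (MvPolynomial (Kap n m r d') A) c) :=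
        h2.algebraMap
      exact h3.extendScalars (algebraMap k B).injective
    | add x y _ _ hx hy => rw [C_add]; exact hx.add hy
    | mul x y _ _ hx hy => rw [C_mul]; exact hx.mul hy
  have hBG : Algebra.IsAlgebraic B (MvPolynomial (Kap n m r d') A) := by
    constructor
    intro p
    induction p using MvPolynomial.induction_on with
    | C a => exact hcl a
    | add p q hp hq => exact hp.add hq
    | mul_X p i hp =>
      refine hp.mul ?_
      rcases i with ⟨j, a⟩ | ⟨j, l⟩
      · exact isAlgebraic_algebraMap (⟨_, hX1 j a⟩ : B)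
      · exact isAlgebraic_algebraMap (⟨_, hX2 j l⟩ : B)
  have h2 : Algebra.trdeg k B = Algebra.trdeg k (MvPolynomial (Kap n m r d') A) := by
    have hFG : FaithfulSMul B (MvPolynomial (Kap n m r d') A) := by
      rw [faithfulSMul_iff_algebraMap_injective]
      exact Subtype.val_injective
    have h6 : Algebra.trdeg B (MvPolynomial (Kap n m r d') A) = 0 := trdeg_eq_zero
    rw [← trdeg_add_eq k B (A := MvPolynomial (Kap n m r d') A), h6, add_zero]
  have h3 : Algebra.trdeg k A + Cardinal.mk (Kap n m r d') =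
      Algebra.trdeg k (MvPolynomial (Kap n m r d') A) := by
    have hFA : FaithfulSMul k A := by
      rw [faithfulSMul_iff_algebraMap_injective]
      exact (algebraMap k A).injective
    rw [← trdeg_add_eq k A (A := MvPolynomial (Kap n m r d') A),
      MvPolynomial.trdeg_of_isDomain, Cardinal.lift_id]
  have h4 : Algebra.trdeg k A = Algebra.trdeg K A := by
    have hFA : FaithfulSMul K A := by
      rw [faithfulSMul_iff_algebraMap_injective]
      exact hAi
    have h6 : Algebra.trdeg k K = 0 := trdeg_eq_zero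
    rw [← trdeg_add_eq k K (A := A), h6, zero_add]
  have h5 : Cardinal.mk (Kap n m r d') = (((n - m) * r + m * d' : ℕ) : Cardinal) := by
    rw [Cardinal.mk_fintype, Fintype.card_sum, Fintype.card_prod, Fintype.card_prod,
      Fintype.card_fin, Fintype.card_fin, Fintype.card_subtype_compl, Fintype.card_fin]
    have h6 : Fintype.card {j : Fin n // j.1 < m} = m := by
      rw [Fintype.card_subtype]
      have : (Finset.univ.filter fun j : Fin n => j.1 < m) =
          Finset.univ.map (Fin.castLEEmb (by omega : m ≤ n)) := by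
        ext j
        simp only [Finset.mem_filter, Finset.mem_univ, true_and, Finset.mem_map,
          Fin.castLEEmb_apply]
        constructor
        · intro h
          exact ⟨⟨j.1, h⟩, Fin.ext rfl⟩
        · rintro ⟨x, rfl⟩
          exact x.2
      rw [this, Finset.card_map, Finset.card_univ, Fintype.card_fin]
    rw [h6]
  rw [h1, h2, ← h3, h4, h5]

end

end Pool.Agent.T2H38.LSS
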