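import Pool.Agent.T2H38.LSS.Upper
import Pool.Agent.T2H38.LSS.Arith
import Pool.Agent.T2H38.LSS.Nzd

/-!
# The dimension of primes containing the orthogonality relations
-/

set_option autoImplicit false
set_option linter.style.haveILetI false

namespace Pool.Agent.T2H38.LSS

open MvPolynomial

/-- the product of the `i`-th and `j`-th row of the matrix of variables -/
noncomputable def ff (k : Type) [Field k] {ι Λ : Type} [Fintype Λ] (i j : ι) :
    MvPolynomial (ι × Λ) k := ∑ l, X (i, l) * X (j, l)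

theorem ff_comm (k : Type) [Field k] {ι Λ : Type} [Fintype Λ] (i j : ι) :
    (ff k i j : MvPolynomial (ι × Λ) k) = ff k j i :=
  Finset.sum_congr rfl fun _ _ => mul_comm _ _

section

variable {K : Type} [Field K] {ι Λ : Type}

theorem LT_top (P : Ideal (MvPolynomial (ι × Λ) K)) [P.IsPrime] :
    LT K (fun (i : ι) (l : Λ) => algebraMap (MvPolynomial (ι × Λ) K ⧸ P)
      (FractionRing (MvPolynomial (ι × Λ) K ⧸ P)) (Ideal.Quotient.mk P (X (i, l))))
      Set.univ = ⊤ := by
  rw [eq_top_iff]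
  have h1 : ∀ p : MvPolynomial (ι × Λ) K, algebraMap (MvPolynomial (ι × Λ) K ⧸ P)
      (FractionRing (MvPolynomial (ι × Λ) K ⧸ P)) (Ideal.Quotient.mk P p) ∈
      LT K (fun (i : ι) (l : Λ) => algebraMap (MvPolynomial (ι × Λ) K ⧸ P)
      (FractionRing (MvPolynomial (ι × Λ) K ⧸ P)) (Ideal.Quotient.mk P (X (i, l))))
      Set.univ := by
    intro p
    induction p using MvPolynomial.induction_on with
    | C a => exact IntermediateField.algebraMap_mem _ a
    | add p q hp hq => rw [map_add, map_add]; exact add_mem hp hq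
    | mul_X p i hp =>
      rw [map_mul, map_mul]
      exact mul_mem hp (mem_LT (i := i.1) (Set.mem_univ _) i.2)
  intro x _
  obtain ⟨a, b, -, rfl⟩ := IsFractionRing.div_surjective (A := MvPolynomial (ι × Λ) K ⧸ P) x
  obtain ⟨p, rfl⟩ := Ideal.Quotient.mk_surjective a
  obtain ⟨q, rfl⟩ := Ideal.Quotient.mk_surjective b
  exact div_mem (h1 p) (h1 q)

variable [Fintype ι] [DecidableEq ι] [Fintype Λ]

theorem prime_bound (P : Ideal (MvPolynomial (ι × Λ) K)) (hP : P.IsPrime)
    (h : ∀ i j, i ≠ j → ff K i j ∈ P) (S : Finset ι) (hS : ∀ i, i ∈ S ↔ ff K i i ∈ P) :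
    ∃ r ≤ S.card, (Fintype.card ι - S.card) + 2 * r ≤ Fintype.card Λ ∧
      Algebra.trdeg K (MvPolynomial (ι × Λ) K ⧸ P) ≤
        ((∑ j ∈ Finset.range r, (Fintype.card Λ - 1 - j) + (S.card - r) * r +
        ∑ j ∈ Finset.range (Fintype.card ι - S.card), (Fintype.card Λ - r - j) : ℕ) :
          Cardinal) := by
  have hinj : Function.Injective (algebraMap (MvPolynomial (ι × Λ) K ⧸ P)
      (FractionRing (MvPolynomial (ι × Λ) K ⧸ P))) := IsFractionRing.injective _ _
  have h0 : ∀ i j : ι, ∑ l : Λ, algebraMap (MvPolynomial (ι × Λ) K ⧸ P)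
      (FractionRing (MvPolynomial (ι × Λ) K ⧸ P)) (Ideal.Quotient.mk P (X (i, l))) *
      algebraMap (MvPolynomial (ι × Λ) K ⧸ P)
      (FractionRing (MvPolynomial (ι × Λ) K ⧸ P)) (Ideal.Quotient.mk P (X (j, l))) = 0 ↔
      ff K i j ∈ P := by
    intro i j
    rw [← Ideal.Quotient.eq_zero_iff_mem, ← map_eq_zero_iff _ hinj]
    unfold ff
    simp only [map_sum, map_mul]
  obtain ⟨r, h1, h2, h3⟩ := upper (K := K) (fun (i : ι) (l : Λ) =>
    algebraMap (MvPolynomial (ι × Λ) K ⧸ P)
      (FractionRing (MvPolynomial (ι × Λ) K ⧸ P)) (Ideal.Quotient.mk P (X (i, l))))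
    (fun i j hij => (h0 i j).2 (h i j hij)) (LT_top P) S (fun i => (hS i).trans (h0 i i).symm)
  refine ⟨r, h1, h2, le_trans ?_ h3⟩
  exact trdeg_le_of_injective (IsScalarTower.toAlgHom K (MvPolynomial (ι × Λ) K ⧸ P)
      (FractionRing (MvPolynomial (ι × Λ) K ⧸ P))) hinj

end

section

variable {K : Type} [Field K] (n d : ℕ)

/-- the orthogonality ideal of the complete graph -/
noncomputable def II (k : Type) [Field k] (n d : ℕ) : Ideal (MvPolynomial (Fin n × Fin d) k) :=
  Ideal.span {p | ∃ i j : Fin n, i ≠ j ∧ p = ff k i j}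

theorem ff_mem_II (k : Type) [Field k] (n d : ℕ) {i j : Fin n} (h : i ≠ j) :
    ff k i j ∈ II k n d := Ideal.subset_span ⟨i, j, h, rfl⟩

theorem ff_hom (k : Type) [Field k] {ι Λ : Type} [Fintype Λ] (i j : ι) :
    (ff k i j : MvPolynomial (ι × Λ) k).IsHomogeneous 2 := by
  unfold ff
  refine IsHomogeneous.sum _ _ _ fun l _ => ?_
  exact (isHomogeneous_X k _).mul (isHomogeneous_X k _)

theorem card_pairs (n : ℕ) :
    (Finset.univ.filter fun p : Fin n × Fin n => p.1 < p.2).card = n * (n - 1) / 2 := by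
  classical
  have h1 : (Finset.univ.filter fun p : Fin n × Fin n => p.1 < p.2).card =
      (Finset.univ.filter fun p : Fin n × Fin n => p.2 < p.1).card := by
    refine Finset.card_bij (fun p _ => (p.2, p.1)) ?_ ?_ ?_
    · intro p hp
      simpa using hp
    · rintro ⟨a, b⟩ _ ⟨c, d⟩ _ h
      simp only [Prod.mk.injEq] at h ⊢
      exact ⟨h.2, h.1⟩
    · rintro ⟨a, b⟩ hp
      exact ⟨(b, a), by simpa using hp, rfl⟩
  have h2 : (Finset.univ : Finset (Fin n)).offDiag =
      (Finset.univ.filter fun p : Fin n × Fin n => p.1 < p.2) ∪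
      (Finset.univ.filter fun p : Fin n × Fin n => p.2 < p.1) := by
    ext ⟨a, b⟩
    simp only [Finset.mem_offDiag, Finset.mem_univ, true_and, Finset.mem_union,
      Finset.mem_filter]
    exact lt_or_lt_iff_ne.symm
  have h3 := Finset.offDiag_card (Finset.univ : Finset (Fin n))
  rw [h2, Finset.card_union_of_disjoint (by
    rw [Finset.disjoint_left]
    rintro ⟨a, b⟩ h4 h5
    simp only [Finset.mem_filter, Finset.mem_univ, true_and] at h4 h5
    exact lt_asymm h4 h5), ← h1, Finset.card_univ, Fintype.card_fin] at h3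
  have h4 : n * n - n = n * (n - 1) := by
    rw [Nat.mul_sub, mul_one]
  omega

variable {n d} in
theorem nz_ff [IsAlgClosed K] (hg : Good n d) (hnd : n ≤ d) (i : Fin n) :
    Pool.Agent.TH144.MB.NZ (ff K i i) (II K n d) := by
  classical
  set L : List (MvPolynomial (Fin n × Fin d) K × ℕ) :=
    (Finset.univ.filter fun p : Fin n × Fin n => p.1 < p.2).toList.map
      (fun p => (ff K p.1 p.2, 2)) with hL
  have hmem : ∀ x ∈ L, ∃ a b : Fin n, a < b ∧ x = (ff K a b, 2) := by
    intro x hx
    rw [hL, List.mem_map] at hx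
    obtain ⟨p, hp, rfl⟩ := hx
    rw [Finset.mem_toList, Finset.mem_filter] at hp
    exact ⟨p.1, p.2, hp.2, rfl⟩
  have hmem' : ∀ a b : Fin n, a < b → (ff K a b, 2) ∈ L := by
    intro a b hab
    rw [hL, List.mem_map]
    exact ⟨(a, b), by rw [Finset.mem_toList, Finset.mem_filter]; exact ⟨Finset.mem_univ _, hab⟩, rfl⟩
  have hspan : Ideal.span {x | x ∈ L.map Prod.fst} = II K n d := by
    apply le_antisymm
    · rw [Ideal.span_le]
      intro x hx
      obtain ⟨y, hy, rfl⟩ := List.mem_map.1 hx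
      obtain ⟨a, b, hab, rfl⟩ := hmem y hy
      exact ff_mem_II K n d hab.ne
    · unfold II
      rw [Ideal.span_le]
      rintro _ ⟨a, b, hab, rfl⟩
      rcases lt_or_gt_of_ne hab with h | h
      · exact Ideal.subset_span (List.mem_map.2 ⟨_, hmem' a b h, rfl⟩)
      · rw [ff_comm]
        exact Ideal.subset_span (List.mem_map.2 ⟨_, hmem' b a h, rfl⟩)
  have hlen : L.length = n * (n - 1) / 2 := by
    rw [hL, List.length_map, Finset.length_toList, card_pairs]
  have hn : 1 ≤ n := by have := i.pos; omega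
  have hbase : n * (n - 1) / 2 + 1 ≤ n * d := by
    have := arith_upper n d 0 1 hg hnd le_rfl hn (by omega) (by omega)
    omega
  rw [← hspan]
  refine nz_of_trdeg L ?_ (ff K i i) 2 (ff_hom K i i) two_pos (n * d - (n * (n - 1) / 2 + 1)) ?_ ?_
  · intro x hx
    obtain ⟨a, b, -, rfl⟩ := hmem x hx
    exact ⟨ff_hom K a b, two_pos⟩
  · rw [hlen, Fintype.card_prod, Fintype.card_fin, Fintype.card_fin]
    omega
  · intro P hP hPL hPi
    set S : Finset (Fin n) := Finset.univ.filter fun j => ff K j j ∈ P with hS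
    obtain ⟨r, h1, h2, h3⟩ := prime_bound P hP (by
      intro a b hab
      rcases lt_or_gt_of_ne hab with h | h
      · exact hPL _ (hmem' a b h)
      · rw [ff_comm]
        exact hPL _ (hmem' b a h)) S (by intro j; rw [hS]; simp)
    rw [Fintype.card_fin, Fintype.card_fin] at h2 h3
    have hSpos : 1 ≤ S.card := Finset.card_pos.2 ⟨i, by rw [hS]; simpa using hPi⟩
    have hSn : S.card ≤ n := by
      have := Finset.card_le_univ S
      rwa [Fintype.card_fin] at this
    have h4 := arith_upper n d r S.card hg hnd hSpos hSn h1 h2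
    refine h3.trans ?_
    exact_mod_cast (by omega)

end

end Pool.Agent.T2H38.LSS
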