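import Mathlib

/-!
# Intermediate fields algebraic over a field generated by few elements
-/

set_option autoImplicit false
set_option linter.style.haveILetI false

namespace Pool.Agent.T2H38.LSS

open IntermediateField

variable {K F : Type} [Field K] [Field F] [Algebra K F]

/-- the algebraic closure of `K(A)` in `F` -/
noncomputable def ac (K : Type) {F : Type} [Field K] [Field F] [Algebra K F] (A : Set F) :
    IntermediateField K F :=
  (algebraicClosure (adjoin K A) F).restrictScalars K

theorem mem_ac {A : Set F} {x : F} : x ∈ ac K A ↔ IsAlgebraic (adjoin K A) x := by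
  unfold ac
  rw [IntermediateField.mem_restrictScalars, mem_algebraicClosure_iff]

theorem alg_mono {L L' : IntermediateField K F} (h : L ≤ L') {x : F} (hx : IsAlgebraic L x) :
    IsAlgebraic L' x := by
  letI := (IntermediateField.inclusion h).toAlgebra
  haveI : IsScalarTower L L' F := IsScalarTower.of_algebraMap_eq fun _ => rfl
  exact hx.extendScalars (algebraMap L L').injective

theorem adjoin_le_ac (A : Set F) : adjoin K A ≤ ac K A := by
  intro x hx
  rw [mem_ac]
  exact isAlgebraic_algebraMap (⟨x, hx⟩ : adjoin K A)

theorem subset_ac (A : Set F) : A ⊆ (ac K A : Set F) := fun _ hx =>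
  adjoin_le_ac A (subset_adjoin K A hx)

theorem ac_mono {A B : Set F} (h : A ⊆ B) : ac K A ≤ ac K B := by
  intro x hx
  rw [mem_ac] at hx ⊢
  exact alg_mono (adjoin.mono K A B h) hx

theorem ac_trans {A : Set F} {L : IntermediateField K F} (h : L ≤ ac K A) {x : F}
    (hx : IsAlgebraic L x) : x ∈ ac K A := by
  have h1 : IsAlgebraic (ac K A) x := alg_mono h hx
  have h2 : IsAlgebraic (algebraicClosure (adjoin K A) F) x := h1
  rw [mem_ac]
  exact h2.restrictScalars (adjoin K A)

/-- all elements of `L` are algebraic over a field generated by `N` elements -/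
def Small (L : IntermediateField K F) (N : ℕ) : Prop :=
  ∃ A : Finset F, A.card ≤ N ∧ L ≤ ac K (A : Set F)

theorem Small.mono {L L' : IntermediateField K F} {N N' : ℕ} (hs : Small L' N) (h : L ≤ L')
    (hN : N ≤ N') : Small L N' := by
  obtain ⟨A, h1, h2⟩ := hs
  exact ⟨A, h1.trans hN, h.trans h2⟩

theorem small_bot : Small (⊥ : IntermediateField K F) 0 :=
  ⟨∅, by simp, bot_le⟩

theorem Small.add {L : IntermediateField K F} {N : ℕ} (h : Small L N) (t : Finset F) :
    Small (L ⊔ adjoin K (t : Set F)) (N + t.card) := by
  classical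
  obtain ⟨A, h1, h2⟩ := h
  refine ⟨A ∪ t, (Finset.card_union_le _ _).trans (by omega), sup_le ?_ ?_⟩
  · exact h2.trans (ac_mono (by rw [Finset.coe_union]; exact Set.subset_union_left))
  · rw [adjoin_le_iff]
    refine Set.Subset.trans ?_ (subset_ac _)
    rw [Finset.coe_union]
    exact Set.subset_union_right

theorem Small.add_fam {L : IntermediateField K F} {N q : ℕ} (h : Small L N) (t : Fin q → F) :
    Small (L ⊔ adjoin K (Set.range t)) (N + q) := by
  classical
  have h1 := h.add (Finset.univ.image t)
  rw [Finset.coe_image, Finset.coe_univ, Set.image_univ] at h1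
  refine h1.mono le_rfl ?_
  have := Finset.card_image_le (s := (Finset.univ : Finset (Fin q))) (f := t)
  rw [Finset.card_univ, Fintype.card_fin] at this
  omega

theorem Small.dep {L : IntermediateField K F} {N q : ℕ} (h : Small L N) (t : Fin q → F)
    (ht : ¬ AlgebraicIndependent L t) :
    Small (L ⊔ adjoin K (Set.range t)) (N + (q - 1)) := by
  classical
  -- one of the `t i` is algebraic over `L` and the others
  have h1 : ∃ s : Set (Fin q), ∃ i ∉ s, IsAlgebraic (Algebra.adjoin L (t '' s)) (t i) := by
    by_contra hcon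
    push Not at hcon
    exact ht (algebraicIndependent_of_finite_type' (algebraMap L F).injective
      fun s _ _ i hi => hcon s i hi)
  obtain ⟨s, i, his, hi⟩ := h1
  have h2 : IsAlgebraic (L ⊔ adjoin K (t '' s) : IntermediateField K F) (t i) := by
    have hle : ∀ x ∈ Algebra.adjoin L (t '' s), x ∈ (L ⊔ adjoin K (t '' s) : IntermediateField K F) := by
      intro x hx
      induction hx using Algebra.adjoin_induction with
      | mem x hx =>
        exact (le_sup_right : adjoin K (t '' s) ≤ L ⊔ adjoin K (t '' s)) (subset_adjoin K _ hx)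
      | algebraMap r => exact (le_sup_left : L ≤ L ⊔ adjoin K (t '' s)) r.2
      | add x y _ _ hx hy => exact add_mem hx hy
      | mul x y _ _ hx hy => exact mul_mem hx hy
    let φ : Algebra.adjoin L (t '' s) →+* (L ⊔ adjoin K (t '' s) : IntermediateField K F) :=
      { toFun := fun x => ⟨x.1, hle x.1 x.2⟩
        map_one' := rfl
        map_mul' := fun _ _ => rfl
        map_zero' := rfl
        map_add' := fun _ _ => rfl }
    letI := φ.toAlgebra
    haveI : IsScalarTower (Algebra.adjoin L (t '' s))
      (L ⊔ adjoin K (t '' s) : IntermediateField K F) F :=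
      IsScalarTower.of_algebraMap_eq fun _ => rfl
    exact hi.extendScalars (fun x y hxy => Subtype.ext (show (x : F) = y from
      congrArg (fun z : (L ⊔ adjoin K (t '' s) : IntermediateField K F) => (z : F)) hxy))
  have hsub : s ⊆ ((Finset.univ.erase i : Finset (Fin q)) : Set (Fin q)) := by
    intro j hj
    rw [Finset.mem_coe, Finset.mem_erase]
    exact ⟨fun h => his (h ▸ hj), Finset.mem_univ _⟩
  obtain ⟨A, hA1, hA2⟩ := h.add ((Finset.univ.erase i).image t)
  refine ⟨A, ?_, ?_⟩
  · have h3 := Finset.card_image_le (s := (Finset.univ.erase i : Finset (Fin q))) (f := t)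
    rw [Finset.card_erase_of_mem (Finset.mem_univ _), Finset.card_univ, Fintype.card_fin] at h3
    omega
  · have hLA : L ⊔ adjoin K (t '' s) ≤ ac K (A : Set F) := by
      refine le_trans (sup_le_sup_left (adjoin.mono K _ _ ?_) L) hA2
      rw [Finset.coe_image]
      exact Set.image_mono hsub
    have hti : t i ∈ ac K (A : Set F) := ac_trans hLA h2
    refine sup_le (le_sup_left.trans hA2) ?_
    rw [adjoin_le_iff]
    rintro _ ⟨j, rfl⟩
    by_cases hj : j = i
    · rw [hj]; exact hti
    · refine hA2 ((le_sup_right : adjoin K _ ≤ L ⊔ adjoin K _) (subset_adjoin K _ ?_))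
      rw [Finset.mem_coe]
      exact Finset.mem_image_of_mem t (Finset.mem_erase.2 ⟨hj, Finset.mem_univ _⟩)

theorem Small.trdeg {N : ℕ} (h : Small (⊤ : IntermediateField K F) N) :
    Algebra.trdeg K F ≤ N := by
  classical
  obtain ⟨A, h1, h2⟩ := h
  have h3 : Algebra.IsAlgebraic (Algebra.adjoin K (A : Set F)) F := by
    constructor
    intro x
    have h4 : IsAlgebraic (adjoin K (A : Set F)) x := mem_ac.1 (h2 (mem_top (x := x)))
    exact isAlgebraic_adjoin_iff.1 h4
  have h4 := Algebra.IsAlgebraic.trdeg_le_cardinalMk K (A : Set F)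
  have h5 : Cardinal.mk (A : Set F) = (A.card : Cardinal) := by simp
  rw [h5] at h4
  exact h4.trans (by exact_mod_cast h1)

end Pool.Agent.T2H38.LSS
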