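import Pool.Agent.T2H38.LSS.Small

/-!
# Adjoining the coordinates of a vector orthogonal to given vectors
-/

set_option autoImplicit false
set_option linter.style.haveILetI false

namespace Pool.Agent.T2H38.LSS

open IntermediateField Module

variable {K F : Type} [Field K] [Field F] [Algebra K F] {Λ : Type} [Fintype Λ]

omit [Algebra K F] in
/-- the `K`-span of the coordinates of `w` and its basis -/
theorem param_aux [Algebra K F] (w : Λ → F) :
    ∃ (q : ℕ) (t : Fin q → F) (H : Λ → Fin q → K), (∀ l, w l = ∑ j, algebraMap K F (H l j) * t j) ∧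
      LinearIndependent K t ∧
      q + finrank K (LinearMap.ker (Fintype.linearCombination K w)) = Fintype.card Λ := by
  classical
  set φ := Fintype.linearCombination K w with hφ
  let b := finBasis K (LinearMap.range φ)
  have hw : ∀ l, w l ∈ LinearMap.range φ := by
    intro l
    refine ⟨Pi.single l 1, ?_⟩
    rw [hφ, Fintype.linearCombination_apply_single, one_smul]
  refine ⟨finrank K (LinearMap.range φ), fun j => (b j : F), fun l j => b.repr ⟨w l, hw l⟩ j,
    ?_, ?_, ?_⟩
  · intro l
    have h1 := congrArg (fun z : LinearMap.range φ => (z : F)) (b.sum_repr ⟨w l, hw l⟩)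
    simp only [Submodule.coe_sum, Submodule.coe_smul] at h1
    rw [← h1]
    refine Finset.sum_congr rfl fun j _ => ?_
    rw [Algebra.smul_def]
  · exact b.linearIndependent.map' (LinearMap.range φ).subtype (Submodule.ker_subtype _)
  · rw [LinearMap.finrank_range_add_finrank_ker, finrank_fintype_fun_eq_card]

/-- the `L`-span of the coordinates of `w` and its basis -/
theorem param (L : IntermediateField K F) (w : Λ → F) :
    ∃ (q : ℕ) (t : Fin q → F) (H : Λ → Fin q → L), (∀ l, w l = ∑ j, (H l j : F) * t j) ∧
      LinearIndependent L t ∧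
      q + finrank L (LinearMap.ker (Fintype.linearCombination L w)) = Fintype.card Λ :=
  param_aux (K := L) w

omit [Fintype Λ] in
theorem le_of_param {L : IntermediateField K F} {w : Λ → F} {q : ℕ} {t : Fin q → F}
    {H : Λ → Fin q → L} (h : ∀ l, w l = ∑ j, (H l j : F) * t j) :
    L ⊔ adjoin K (Set.range w) ≤ L ⊔ adjoin K (Set.range t) := by
  refine sup_le le_sup_left ?_
  rw [adjoin_le_iff]
  rintro _ ⟨l, rfl⟩
  rw [h l]
  refine sum_mem fun j _ => mul_mem ?_ ?_
  · exact (le_sup_left : L ≤ L ⊔ adjoin K (Set.range t)) (H l j).2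
  · exact (le_sup_right : adjoin K (Set.range t) ≤ L ⊔ adjoin K (Set.range t))
      (subset_adjoin K _ ⟨j, rfl⟩)

omit [Fintype Λ] in
/-- descend a linearly independent family -/
theorem descend {L : IntermediateField K F} {ι : Type} {u : ι → Λ → F}
    (huL : ∀ i l, u i l ∈ L) (hu : LinearIndependent F u) :
    LinearIndependent L (fun i l => (⟨u i l, huL i l⟩ : L)) := by
  have h1 : LinearIndependent L u := hu.restrict_scalars' L
  refine LinearIndependent.of_comp
    (LinearMap.compLeft (Algebra.linearMap L F) Λ) ?_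
  exact h1

section

variable {L : IntermediateField K F} {N : ℕ} {ι : Type} [Fintype ι] {u : ι → Λ → F}

theorem card_le_ker (huL : ∀ i l, u i l ∈ L) (hu : LinearIndependent F u) {w : Λ → F}
    (hw : ∀ i, ∑ l, u i l * w l = 0) :
    Fintype.card ι ≤ finrank L (LinearMap.ker (Fintype.linearCombination L w)) := by
  have h1 := descend huL hu
  have h2 : ∀ i, (fun l => (⟨u i l, huL i l⟩ : L)) ∈
      LinearMap.ker (Fintype.linearCombination L w) := by
    intro i
    rw [LinearMap.mem_ker, Fintype.linearCombination_apply, ← hw i]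
    refine Finset.sum_congr rfl fun l _ => ?_
    rw [Algebra.smul_def]
    rfl
  have h3 : LinearIndependent L (fun i => (⟨_, h2 i⟩ :
      LinearMap.ker (Fintype.linearCombination L w))) :=
    LinearIndependent.of_comp (LinearMap.ker (Fintype.linearCombination L w)).subtype h1
  exact h3.fintype_card_le_finrank

theorem step_lin (hN : Small L N) (huL : ∀ i l, u i l ∈ L) (hu : LinearIndependent F u)
    {w : Λ → F} (hw : ∀ i, ∑ l, u i l * w l = 0) :
    Small (L ⊔ adjoin K (Set.range w)) (N + (Fintype.card Λ - Fintype.card ι)) := by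
  obtain ⟨q, t, H, h1, -, h3⟩ := param L w
  have h4 := card_le_ker huL hu hw
  exact (hN.add_fam t).mono (le_of_param h1) (by omega)

omit [Fintype Λ] in
theorem step_span (hN : Small L N) (huL : ∀ i l, u i l ∈ L) {w : Λ → F}
    (hw : w ∈ Submodule.span F (Set.range u)) :
    Small (L ⊔ adjoin K (Set.range w)) (N + Fintype.card ι) := by
  classical
  obtain ⟨c, hc⟩ := (Submodule.mem_span_range_iff_exists_fun F).1 hw
  let e := Fintype.equivFin ι
  refine (hN.add_fam (fun j => c (e.symm j))).mono ?_ le_rfl
  refine sup_le le_sup_left ?_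
  rw [adjoin_le_iff]
  rintro _ ⟨l, rfl⟩
  rw [← hc, Finset.sum_apply]
  refine sum_mem fun i _ => ?_
  rw [Pi.smul_apply, smul_eq_mul]
  refine mul_mem ?_ ?_
  · refine (le_sup_right : adjoin K (Set.range fun j => c (e.symm j)) ≤ L ⊔ adjoin K _)
      (subset_adjoin K _ ⟨e i, ?_⟩)
    simp
  · exact (le_sup_left : L ≤ L ⊔ adjoin K _) (huL i l)

theorem step_quad (h2 : (2 : F) ≠ 0) (hN : Small L N) (huL : ∀ i l, u i l ∈ L)
    (hu : LinearIndependent F u) {w : Λ → F} (hw : ∀ i, ∑ l, u i l * w l = 0)
    (hww : ∑ l, w l * w l = 0) (hspan : w ∉ Submodule.span F (Set.range u)) :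
    Small (L ⊔ adjoin K (Set.range w)) (N + (Fintype.card Λ - Fintype.card ι - 1)) := by
  classical
  obtain ⟨q, t, H, h1, h2', h3⟩ := param L w
  have h4 := card_le_ker huL hu hw
  rcases lt_or_ge q (Fintype.card Λ - Fintype.card ι) with hq | hq
  · exact (hN.add_fam t).mono (le_of_param h1) (by omega)
  by_cases hind : AlgebraicIndependent L t
  swap
  · exact (hN.dep t hind).mono (le_of_param h1) (by omega)
  exfalso
  apply hspan
  have h5 : finrank L (LinearMap.ker (Fintype.linearCombination L w)) = Fintype.card ι := by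
    omega
  -- the columns are pairwise orthogonal
  have h6 : ∀ c : Fin q → L, ∑ l, (∑ j, H l j * c j) ^ 2 = 0 := by
    intro c
    have h7 : (∑ l, (∑ j, MvPolynomial.C (H l j) * MvPolynomial.X j) ^ 2 :
        MvPolynomial (Fin q) L) = 0 := by
      apply hind
      rw [map_zero, map_sum, ← hww]
      refine Finset.sum_congr rfl fun l _ => ?_
      rw [map_pow, map_sum, ← pow_two, h1 l]
      congr 1
      refine Finset.sum_congr rfl fun j _ => ?_
      rw [map_mul, MvPolynomial.aeval_C, MvPolynomial.aeval_X]
      rfl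
    have h8 := congrArg (MvPolynomial.eval c) h7
    simpa using h8
  have h2L : (2 : L) ≠ 0 := by
    intro h
    apply h2
    have := congrArg (algebraMap L F) h
    rwa [map_ofNat, map_zero] at this
  have h7 : ∀ i j : Fin q, ∑ l, H l i * H l j = 0 := by
    intro i j
    have h8 := h6 (Pi.single i 1)
    have h9 := h6 (Pi.single j 1)
    have h10 := h6 (Pi.single i 1 + Pi.single j 1)
    simp only [Pi.add_apply, mul_add, Finset.sum_add_distrib] at h10
    have h11 : ∀ (l : Λ) (k : Fin q), ∑ x, H l x * (Pi.single k 1 : Fin q → L) x = H l k := by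
      intro l k
      rw [Finset.sum_eq_single k]
      · simp
      · intro b _ hb
        rw [Pi.single_eq_of_ne hb, mul_zero]
      · intro h; exact absurd (Finset.mem_univ k) h
    simp only [h11] at h8 h9 h10
    have h12 : ∑ l, (H l i + H l j) ^ 2 = ∑ l, H l i ^ 2 + ∑ l, H l j ^ 2 +
        2 * ∑ l, H l i * H l j := by
      rw [Finset.mul_sum, ← Finset.sum_add_distrib, ← Finset.sum_add_distrib]
      exact Finset.sum_congr rfl fun l _ => by ring
    rw [h12, h8, h9, add_zero, zero_add] at h10
    exact (mul_eq_zero.1 h10).resolve_left h2L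
  -- so they lie in the kernel
  have h8 : ∀ i, (fun l => H l i) ∈ LinearMap.ker (Fintype.linearCombination L w) := by
    intro i
    rw [LinearMap.mem_ker, Fintype.linearCombination_apply]
    have h9 : ∀ l, H l i • w l = ∑ j, ((H l i * H l j : L) : F) * t j := by
      intro l
      rw [Algebra.smul_def, h1 l, Finset.mul_sum]
      refine Finset.sum_congr rfl fun j _ => ?_
      rw [← mul_assoc]
      rfl
    rw [Finset.sum_congr rfl fun l _ => h9 l, Finset.sum_comm]
    refine Finset.sum_eq_zero fun j _ => ?_
    rw [← Finset.sum_mul]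
    have h10 := congrArg (fun z : L => (z : F)) (h7 i j)
    simp only [AddSubmonoidClass.coe_finsetSum] at h10
    rw [h10]
    simp
  have h9 : LinearMap.ker (Fintype.linearCombination L w) =
      Submodule.span L (Set.range fun i l => (⟨u i l, huL i l⟩ : L)) := by
    symm
    apply Submodule.eq_of_le_of_finrank_eq
    · rw [Submodule.span_le]
      rintro _ ⟨i, rfl⟩
      rw [SetLike.mem_coe, LinearMap.mem_ker, Fintype.linearCombination_apply, ← hw i]
      refine Finset.sum_congr rfl fun l _ => ?_
      rw [Algebra.smul_def]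
      rfl
    · rw [h5, finrank_span_eq_card (descend huL hu)]
  have h10 : ∀ i, (fun l => (H l i : F)) ∈ Submodule.span F (Set.range u) := by
    intro i
    have h11 := h8 i
    rw [h9] at h11
    obtain ⟨c, hc⟩ := (Submodule.mem_span_range_iff_exists_fun L).1 h11
    refine (Submodule.mem_span_range_iff_exists_fun F).2 ⟨fun k => (c k : F), ?_⟩
    funext l
    have h12 := congrArg (fun z : L => (z : F)) (congrFun hc l)
    simp only [Finset.sum_apply, Pi.smul_apply, smul_eq_mul] at h12 ⊢
    rw [← h12]
    push_cast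
    rfl
  have h11 : w = ∑ j, t j • (fun l => (H l j : F)) := by
    funext l
    rw [h1 l, Finset.sum_apply]
    refine Finset.sum_congr rfl fun j _ => ?_
    rw [Pi.smul_apply, smul_eq_mul, mul_comm]
  rw [h11]
  exact Submodule.sum_mem _ fun j _ => Submodule.smul_mem _ _ (h10 j)

end

end Pool.Agent.T2H38.LSS
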