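import Pool.Agent.T2H38.LSS.Iso

/-!
# Fields generated by pairwise orthogonal vectors
-/

set_option autoImplicit false
set_option linter.style.haveILetI false

namespace Pool.Agent.T2H38.LSS

open IntermediateField Module

variable {K F : Type} [Field K] [Field F] [Algebra K F] {Λ : Type} [Fintype Λ] {ι : Type}
  [Fintype ι] [DecidableEq ι]

omit [Fintype ι] in
theorem indep_union {v : ι → Λ → F} (horth : ∀ i j, i ≠ j → ∑ l, v i l * v j l = 0)
    {B : Finset ι} (hB : LinearIndepOn F v (B : Set ι)) (T : Finset ι)
    (hT : ∀ i ∈ T, ∑ l, v i l * v i l ≠ 0) (hd : Disjoint B T) :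
    LinearIndepOn F v ((B ∪ T : Finset ι) : Set ι) := by
  classical
  induction T using Finset.induction_on with
  | empty => simpa using hB
  | insert i T hi ih =>
    rw [Finset.disjoint_insert_right] at hd
    have h1 := ih (fun j hj => hT j (Finset.mem_insert_of_mem hj)) hd.2
    have hi' : i ∉ B ∪ T := by
      rw [Finset.mem_union, not_or]
      exact ⟨hd.1, hi⟩
    rw [Finset.union_insert, Finset.coe_insert, linearIndepOn_insert (by rwa [Finset.mem_coe])]
    refine ⟨h1, fun h2 => hT i (Finset.mem_insert_self i T) ?_⟩
    -- everything in the span is orthogonal to `v i`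
    have h3 : ∀ w ∈ Submodule.span F (v '' ((B ∪ T : Finset ι) : Set ι)),
        ∑ l, v i l * w l = 0 := by
      intro w hw
      induction hw using Submodule.span_induction with
      | mem w hw =>
        obtain ⟨j, hj, rfl⟩ := hw
        exact horth i j (fun h => hi' (h ▸ Finset.mem_coe.1 hj))
      | zero => simp
      | add x y _ _ hx hy =>
        simp only [Pi.add_apply, mul_add, Finset.sum_add_distrib, hx, hy, add_zero]
      | smul a x _ hx =>
        have : ∀ l, v i l * (a • x) l = a * (v i l * x l) := by
          intro l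
          rw [Pi.smul_apply, smul_eq_mul]; ring
        rw [Finset.sum_congr rfl fun l _ => this l, ← Finset.mul_sum, hx, mul_zero]
    exact h3 _ h2

theorem upper (v : ι → Λ → F) (horth : ∀ i j, i ≠ j → ∑ l, v i l * v j l = 0)
    (hgen : LT K v Set.univ = ⊤) (S : Finset ι) (hS : ∀ i, i ∈ S ↔ ∑ l, v i l * v i l = 0) :
    ∃ r ≤ S.card, (Fintype.card ι - S.card) + 2 * r ≤ Fintype.card Λ ∧
      Algebra.trdeg K F ≤ ((∑ j ∈ Finset.range r, (Fintype.card Λ - 1 - j) +
        (S.card - r) * r +
        ∑ j ∈ Finset.range (Fintype.card ι - S.card), (Fintype.card Λ - r - j) : ℕ) :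
          Cardinal) := by
  classical
  obtain ⟨B, -, hBS, hB, hB2⟩ := exists_basis v ∅ S (by
    rw [Finset.coe_empty]
    exact linearIndepOn_empty F v) (Finset.empty_subset S)
  have hiso : ∀ i ∈ S, ∀ j ∈ S, ∑ l, v i l * v j l = 0 := by
    intro i hi j _
    by_cases hij : i = j
    · rw [← hij]; exact (hS i).1 hi
    · exact horth i j hij
  have hunion : ∀ T : Finset ι, T ⊆ Finset.univ \ S →
      LinearIndepOn F v ((B ∪ T : Finset ι) : Set ι) := by
    intro T hT
    refine indep_union horth hB T (fun i hi h => ?_) ?_
    · exact (Finset.mem_sdiff.1 (hT hi)).2 ((hS i).2 h)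
    · rw [Finset.disjoint_left]
      intro i hi hiT
      exact (Finset.mem_sdiff.1 (hT hiT)).2 (hBS hi)
  have hcardU : (Finset.univ \ S : Finset ι).card = Fintype.card ι - S.card := by
    rw [Finset.card_sdiff_of_subset (Finset.subset_univ S), Finset.card_univ]
  have hdisj : Disjoint B (Finset.univ \ S) := by
    rw [Finset.disjoint_left]
    intro i hi hiT
    exact (Finset.mem_sdiff.1 hiT).2 (hBS hi)
  have hdim : (Fintype.card ι - S.card) + 2 * B.card ≤ Fintype.card Λ := by
    have h1 := dim_bound (u := fun x : B => v x) hB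
      (u' := fun x : ((B ∪ (Finset.univ \ S) : Finset ι)) => v x)
      (hunion _ (Finset.Subset.refl _)) (by
        intro x y
        by_cases hxy : x.1 = y.1
        · rw [← hxy]
          exact (hS x.1).1 (hBS x.2)
        · exact horth _ _ hxy)
    rw [Fintype.card_coe, Fintype.card_coe, Finset.card_union_of_disjoint hdisj, hcardU] at h1
    omega
  have h1 : Small (LT K v (S : Set ι))
      (∑ j ∈ Finset.range B.card, (Fintype.card Λ - 1 - j) + (S.card - B.card) * B.card) := by
    by_cases h2 : (2 : F) = 0
    · exact iso_bound_two h2 v S hiso B hBS hB hB2 (by omega)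
    · exact iso_bound_ne h2 v S hiso B hBS hB hB2
  refine ⟨B.card, Finset.card_le_card hBS, hdim, ?_⟩
  have h2 := chain (K := K) v S h1 (fun j => Fintype.card Λ - B.card - j) (Finset.univ \ S) (by
    intro T hT i hi hiT N hN
    have h3 := step_lin (K := K) hN (u := fun x : ((B ∪ T : Finset ι)) => v x) (w := v i)
      (fun x l => mem_LT (by
        have h4 := x.2
        rw [Finset.mem_union] at h4
        rw [Finset.mem_coe, Finset.mem_union]
        rcases h4 with h4 | h4
        · exact Or.inl (hBS h4)
        · exact Or.inr h4) l) (hunion T hT) (by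
        rintro ⟨x, hx⟩
        refine horth x i ?_
        rintro rfl
        rw [Finset.mem_union] at hx
        rcases hx with hx | hx
        · exact (Finset.mem_sdiff.1 hi).2 (hBS hx)
        · exact hiT hx)
    rw [Fintype.card_coe, Finset.card_union_of_disjoint (hdisj.mono_right hT)] at h3
    refine h3.mono le_rfl ?_
    rw [Nat.sub_sub])
  rw [Finset.union_sdiff_of_subset (Finset.subset_univ S), Finset.coe_univ, hgen, hcardU] at h2
  exact h2.trdeg

end Pool.Agent.T2H38.LSS
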